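import Mathlib

set_option autoImplicit false

open Complex

namespace Pool.Agent.MP_291b24_nt

/-- The Jacobi symbol `m ↦ (m/n)` as a Dirichlet character modulo `n`. -/
noncomputable def chi (n : ℕ) [NeZero n] : DirichletCharacter ℂ n where
  toFun a := ((jacobiSym (a.val : ℤ) n : ℤ) : ℂ)
  map_one' := by
    rw [ZMod.val_one_eq_one_mod, Int.natCast_mod, ← jacobiSym.mod_left]
    simp
  map_mul' a b := by
    rw [ZMod.val_mul, Int.natCast_mod, ← jacobiSym.mod_left]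
    push_cast
    rw [jacobiSym.mul_left]
    push_cast
    rfl
  map_nonunit' a ha := by
    have h : ¬ (a.val.Coprime n) := fun h => ha ((ZMod.isUnit_iff_coprime a.val n).2 h |> fun h' => by
      rwa [ZMod.natCast_zmod_val] at h')
    have : jacobiSym (a.val : ℤ) n = 0 := by
      rw [jacobiSym.eq_zero_iff_not_coprime, Int.gcd_natCast_natCast]
      exact h
    rw [this]; simp

/-- The Dirichlet `L`-function `L(s, χ_n)` of the Jacobi symbol modulo `n` (for `n ≥ 1`);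
for `n = 1` this is the Riemann zeta function. -/
noncomputable def Lchi (n : ℕ) (s : ℂ) : ℂ :=
  if h : n = 0 then 0 else (haveI : NeZero n := ⟨h⟩; (chi n).LFunction s)

/-- `Γ_e(1/2 + α)`. -/
noncomputable def Ge (α : ℂ) : ℂ := Gamma (1 / 4 - α / 2) / Gamma (1 / 4 + α / 2)

/-- `Γ_o(1/2 + α)`. -/
noncomputable def Go (α : ℂ) : ℂ := Gamma (3 / 4 - α / 2) / Gamma (3 / 4 + α / 2)

/-- The Euler product `P_{D,2}(α, β)` over odd primes. -/
noncomputable def PD (α β : ℂ) : ℂ :=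
  ∏' p : {p : ℕ // p.Prime ∧ 3 ≤ p},
    (1 + (1 - ((p : ℕ) : ℂ) ^ (β - α)) /
      ((((p : ℕ) : ℂ) + 1) * (((p : ℕ) : ℂ) ^ (1 + α + β) - 1)))

/-- `S(X; α, β)`: sum over odd squarefree `n ≤ X` of `L(1/2+α, χ_n) / L(1/2+β, χ_n)`. -/
noncomputable def S (X : ℝ) (α β : ℂ) : ℂ :=
  ∑ n ∈ (Finset.Icc 1 ⌊X⌋₊).filter (fun n => Odd n ∧ Squarefree n),
    Lchi n (1 / 2 + α) * (Lchi n (1 / 2 + β))⁻¹

/-- The first main term. -/
noncomputable def M1 (X : ℝ) (α β : ℂ) : ℂ :=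
  2 * X * riemannZeta (1 + 2 * α) * PD α β / (3 * riemannZeta 2 * riemannZeta (1 + α + β))

/-- The second main term. -/
noncomputable def M2 (X : ℝ) (α β : ℂ) : ℂ :=
  (Real.pi : ℂ) ^ α * (X : ℂ) ^ (1 - α) * riemannZeta (1 - 2 * α) * PD (-α) β /
    (3 * (1 - α) * riemannZeta 2 * riemannZeta (1 + β - α)) * (Ge α + Go α)

end Pool.Agent.MP_291b24_nt
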