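import Mathlib
import Pool.Agent.Lib.MP_291b24_nt.Defs

set_option autoImplicit false

open Finset ArithmeticFunction
open Complex (I)

namespace Pool.Agent.MP_291b24_nt

noncomputable def kap (ρ : ℂ) (n : ℕ) : ℂ := if n % 4 = 1 then 1 else ρ

noncomputable def wt (ρ : ℂ) (n : ℕ) : ℂ := if Odd n ∧ Squarefree n then kap ρ n else 0

noncomputable def okap (ρ : ℂ) (n : ℕ) : ℂ := if Odd n then kap ρ n else 0

lemma norm_okap_I_le (n : ℕ) : ‖okap I n‖ ≤ 1 := by
  unfold okap kap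
  split_ifs <;> simp

lemma sum_moebius_divisors (b : ℕ) : ∑ d ∈ b.divisors, (moebius d : ℤ) = if b = 1 then 1 else 0 := by
  have := congrArg (fun f : ArithmeticFunction ℤ => f b) coe_zeta_mul_moebius
  simp only [coe_zeta_mul_apply, one_apply] at this
  exact this

lemma sqfree_indicator {n D : ℕ} (hn : 0 < n) (hD : n ≤ D ^ 2) :
    (∑ d ∈ Icc 1 D, if d ^ 2 ∣ n then (moebius d : ℤ) else 0) = if Squarefree n then 1 else 0 := by
  obtain ⟨a, b, hab, ha⟩ := Nat.sq_mul_squarefree n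
  have hb0 : b ≠ 0 := by rintro rfl; simp at hab; omega
  have ha0 : 0 < a := by
    rcases Nat.eq_zero_or_pos a with h | h
    · subst h; simp at hab; omega
    · exact h
  rw [← Finset.sum_filter]
  have hset : (Icc 1 D).filter (fun d => d ^ 2 ∣ n) = b.divisors := by
    ext d
    simp only [mem_filter, mem_Icc, Nat.mem_divisors]
    constructor
    · rintro ⟨⟨h1, _⟩, h2⟩
      refine ⟨?_, hb0⟩
      rw [← hab] at h2
      obtain ⟨g, d', b', hg, hcop, rfl, rfl⟩ := Nat.exists_coprime' (m := d) (n := b) (Nat.gcd_pos_of_pos_left _ h1)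
      rw [mul_pow, mul_pow] at h2
      have h3 : d' ^ 2 ∣ b' ^ 2 * a := by
        have : d' ^ 2 * g ^ 2 ∣ (b' ^ 2 * a) * g ^ 2 := by
          refine h2.trans (dvd_of_eq (by ring))
        exact Nat.dvd_of_mul_dvd_mul_right (by positivity) this
      have h4 : d' ^ 2 ∣ a := (Nat.Coprime.pow 2 2 hcop).dvd_of_dvd_mul_left h3
      have h5 : IsUnit d' := ha d' (by rwa [← sq])
      rw [Nat.isUnit_iff.1 h5]
      simp
    · rintro ⟨h1, _⟩
      have hdpos : 0 < d := Nat.pos_of_dvd_of_pos h1 (Nat.pos_of_ne_zero hb0)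
      refine ⟨⟨hdpos, ?_⟩, ?_⟩
      · have h2 : d ≤ b := Nat.le_of_dvd (Nat.pos_of_ne_zero hb0) h1
        have h3 : b ^ 2 ≤ D ^ 2 := by
          calc b ^ 2 ≤ b ^ 2 * a := Nat.le_mul_of_pos_right _ ha0
            _ = n := hab
            _ ≤ D ^ 2 := hD
        have h4 : b ≤ D := by
          by_contra h
          push Not at h
          have := Nat.pow_lt_pow_left h (n := 2) (by norm_num)
          omega
        omega
      · rw [← hab]
        exact Dvd.dvd.mul_right (pow_dvd_pow_of_dvd h1 2) a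
  rw [hset, sum_moebius_divisors]
  congr 1
  simp only [eq_iff_iff]
  constructor
  · rintro rfl
    rw [← hab]; simpa using ha
  · intro h
    have : IsUnit b := h b (by rw [← sq, ← hab]; exact dvd_mul_right _ _)
    exact Nat.isUnit_iff.1 this

lemma sum_filter_dvd (h : ℕ → ℂ) {q : ℕ} (hq : 0 < q) (a b : ℕ) :
    ∑ n ∈ (Ioc a b).filter (fun n => q ∣ n), h n = ∑ m ∈ Ioc (a / q) (b / q), h (q * m) := by
  symm
  refine Finset.sum_bij (fun m _ => q * m) ?_ ?_ ?_ ?_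
  · intro m hm
    rw [mem_Ioc] at hm
    rw [mem_filter, mem_Ioc]
    refine ⟨⟨?_, ?_⟩, dvd_mul_right _ _⟩
    · have := (Nat.div_lt_iff_lt_mul hq).1 hm.1
      rwa [mul_comm] at this
    · have := (Nat.le_div_iff_mul_le hq).1 hm.2
      rwa [mul_comm] at this
  · intro m _ m' _ h
    exact Nat.eq_of_mul_eq_mul_left hq h
  · intro n hn
    rw [mem_filter, mem_Ioc] at hn
    obtain ⟨⟨h1, h2⟩, m, rfl⟩ := hn
    refine ⟨m, ?_, rfl⟩
    rw [mem_Ioc]
    constructor
    · rw [Nat.div_lt_iff_lt_mul hq, mul_comm]; exact h1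
    · rw [Nat.le_div_iff_mul_le hq, mul_comm]; exact h2
  · intro m _; rfl

lemma shift_sum (g : ℕ → ℂ) (ξ : ℂ) (hg : ∀ m, g (m + 4) = ξ * g m) (A k : ℕ) :
    (ξ - 1) * ∑ m ∈ Ioc A (A + k), g m =
      (g (A + k + 1) + g (A + k + 2) + g (A + k + 3) + g (A + k + 4)) -
      (g (A + 1) + g (A + 2) + g (A + 3) + g (A + 4)) := by
  induction k with
  | zero => simp
  | succ k ih =>
    rw [← add_assoc, Finset.sum_Ioc_succ_top (by omega), mul_add, ih]
    have := hg (A + k + 1)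
    rw [(by ring : A + k + 1 + 4 = A + k + 5)] at this
    rw [(by ring : A + k + 1 + 1 = A + k + 2), (by ring : A + k + 1 + 2 = A + k + 3),
      (by ring : A + k + 1 + 3 = A + k + 4), (by ring : A + k + 1 + 4 = A + k + 5), this]
    ring

lemma norm_sum_le_of_shift (g : ℕ → ℂ) (ξ : ℂ) (hg : ∀ m, g (m + 4) = ξ * g m)
    (hb : ∀ m, ‖g m‖ ≤ 1) {A B : ℕ} (hAB : A ≤ B) :
    ‖ξ - 1‖ * ‖∑ m ∈ Ioc A B, g m‖ ≤ 8 := by
  obtain ⟨k, rfl⟩ := Nat.exists_eq_add_of_le hAB
  rw [← norm_mul, shift_sum g ξ hg]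
  refine (norm_sub_le _ _).trans ?_
  have h4 : ∀ a b c d : ℂ, ‖a‖ ≤ 1 → ‖b‖ ≤ 1 → ‖c‖ ≤ 1 → ‖d‖ ≤ 1 → ‖a + b + c + d‖ ≤ 4 := by
    intro a b c d ha hb hc hd
    have := norm_add_le (a + b + c) d
    have := norm_add_le (a + b) c
    have := norm_add_le a b
    linarith
  have := h4 _ _ _ _ (hb (A + k + 1)) (hb (A + k + 2)) (hb (A + k + 3)) (hb (A + k + 4))
  have := h4 _ _ _ _ (hb (A + 1)) (hb (A + 2)) (hb (A + 3)) (hb (A + 4))
  linarith

lemma root_sub_one_ge {P : ℕ} (hP : 0 < P) {ξ : ℂ} (h1 : ξ ^ P = 1) (hne : ξ ≠ 1) :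
    1 ≤ (P : ℝ) * ‖ξ - 1‖ := by
  have hnorm : ‖ξ‖ = 1 := Complex.norm_eq_one_of_pow_eq_one h1 hP.ne'
  have hpow : ∀ j : ℕ, ‖ξ ^ j - 1‖ ≤ j * ‖ξ - 1‖ := by
    intro j
    induction j with
    | zero => simp
    | succ j ih =>
      have : ξ ^ (j + 1) - 1 = (ξ ^ j - 1) + ξ ^ j * (ξ - 1) := by ring
      rw [this]
      refine (norm_add_le _ _).trans ?_
      rw [norm_mul, norm_pow, hnorm, one_pow, one_mul]
      push_cast
      linarith
  have hsum : ∑ j ∈ range P, ξ ^ j = 0 := by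
    have := mul_geom_sum ξ P
    rw [h1, sub_self] at this
    rcases mul_eq_zero.1 this with h | h
    · exact absurd (sub_eq_zero.1 h) hne
    · exact h
  have h2 : (P : ℂ) = -∑ j ∈ range P, (ξ ^ j - 1) := by
    rw [Finset.sum_sub_distrib, hsum]; simp
  have h3 : (P : ℝ) ≤ ∑ j ∈ range P, ‖ξ ^ j - 1‖ := by
    calc (P : ℝ) = ‖(P : ℂ)‖ := by simp
      _ = ‖∑ j ∈ range P, (ξ ^ j - 1)‖ := by rw [h2, norm_neg]
      _ ≤ _ := norm_sum_le _ _
  have h4 : ∑ j ∈ range P, ‖ξ ^ j - 1‖ ≤ ∑ j ∈ range P, (P : ℝ) * ‖ξ - 1‖ := by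
    refine Finset.sum_le_sum fun j hj => (hpow j).trans ?_
    have : (j : ℝ) ≤ P := by exact_mod_cast (mem_range.1 hj).le
    exact mul_le_mul_of_nonneg_right this (norm_nonneg _)
  rw [Finset.sum_const, card_range, nsmul_eq_mul] at h4
  have h5 : (0 : ℝ) < P := by exact_mod_cast hP
  have h6 := h3.trans h4
  nlinarith

lemma okap_add_four (m : ℕ) : okap I (m + 4) = okap I m := by
  unfold okap kap
  have h1 : Odd (m + 4) ↔ Odd m := by
    rw [Nat.odd_add]; simp [show Even 4 from ⟨2, rfl⟩]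
  have h2 : (m + 4) % 4 = m % 4 := by omega
  simp only [h1, h2]

lemma okap_four_sum (A : ℕ) : okap I (A + 1) + okap I (A + 2) + okap I (A + 3) + okap I (A + 4) = 1 + I := by
  have h : A % 4 = 0 ∨ A % 4 = 1 ∨ A % 4 = 2 ∨ A % 4 = 3 := by omega
  unfold okap kap
  simp only [Nat.odd_iff]
  rcases h with h | h | h | h
  · have e1 : (A + 1) % 2 = 1 := by omega
    have e2 : ¬ (A + 2) % 2 = 1 := by omega
    have e3 : (A + 3) % 2 = 1 := by omega
    have e4 : ¬ (A + 4) % 2 = 1 := by omega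
    have f1 : (A + 1) % 4 = 1 := by omega
    have f3 : ¬ (A + 3) % 4 = 1 := by omega
    simp only [e1, e2, e3, e4, f1, f3, if_true, if_false]; ring
  · have e1 : ¬ (A + 1) % 2 = 1 := by omega
    have e2 : (A + 2) % 2 = 1 := by omega
    have e3 : ¬ (A + 3) % 2 = 1 := by omega
    have e4 : (A + 4) % 2 = 1 := by omega
    have f1 : ¬ (A + 2) % 4 = 1 := by omega
    have f3 : (A + 4) % 4 = 1 := by omega
    simp only [e1, e2, e3, e4, f1, f3, if_true, if_false]; ring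
  · have e1 : (A + 1) % 2 = 1 := by omega
    have e2 : ¬ (A + 2) % 2 = 1 := by omega
    have e3 : (A + 3) % 2 = 1 := by omega
    have e4 : ¬ (A + 4) % 2 = 1 := by omega
    have f1 : ¬ (A + 1) % 4 = 1 := by omega
    have f3 : (A + 3) % 4 = 1 := by omega
    simp only [e1, e2, e3, e4, f1, f3, if_true, if_false]; ring
  · have e1 : ¬ (A + 1) % 2 = 1 := by omega
    have e2 : (A + 2) % 2 = 1 := by omega
    have e3 : ¬ (A + 3) % 2 = 1 := by omega
    have e4 : (A + 4) % 2 = 1 := by omega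
    have f1 : (A + 2) % 4 = 1 := by omega
    have f3 : ¬ (A + 4) % 4 = 1 := by omega
    simp only [e1, e2, e3, e4, f1, f3, if_true, if_false]; ring

lemma sum_okap_four_mul (A k : ℕ) : ∑ m ∈ Ioc A (A + 4 * k), okap I m = (1 + I) * k := by
  induction k with
  | zero => simp
  | succ k ih =>
    rw [(by ring : A + 4 * (k + 1) = A + 4 * k + 1 + 1 + 1 + 1),
      Finset.sum_Ioc_succ_top (by omega), Finset.sum_Ioc_succ_top (by omega),
      Finset.sum_Ioc_succ_top (by omega), Finset.sum_Ioc_succ_top (by omega), ih]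
    have := okap_four_sum (A + 4 * k)
    push_cast
    rw [(by ring : A + 4 * k + 1 + 1 + 1 + 1 = A + 4 * k + 4), (by ring : A + 4 * k + 1 + 1 + 1 = A + 4 * k + 3),
      (by ring : A + 4 * k + 1 + 1 = A + 4 * k + 2)]
    linear_combination this

lemma norm_one_add_I_le : ‖(1 + I : ℂ)‖ ≤ 2 := by
  refine (norm_add_le _ _).trans ?_
  simp; norm_num

lemma one_le_norm_one_add_I : 1 ≤ ‖(1 + I : ℂ)‖ := by
  have := Complex.abs_re_le_norm (1 + I)
  simpa using this

lemma sum_okap_approx {A B : ℕ} (hAB : A ≤ B) :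
    ‖(∑ m ∈ Ioc A B, okap I m) - (1 + I) * ((B : ℂ) - A) / 4‖ ≤ 5 := by
  obtain ⟨n, rfl⟩ := Nat.exists_eq_add_of_le hAB
  set k := n / 4 with hk
  set r := n % 4 with hr
  have hn : n = 4 * k + r := by omega
  have hr4 : r < 4 := by omega
  have hsplit : ∑ m ∈ Ioc A (A + n), okap I m =
      ∑ m ∈ Ioc A (A + 4 * k), okap I m + ∑ m ∈ Ioc (A + 4 * k) (A + n), okap I m :=
    (Finset.sum_Ioc_consecutive _ (by omega) (by omega)).symm
  rw [hsplit, sum_okap_four_mul]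
  have hrem : ‖∑ m ∈ Ioc (A + 4 * k) (A + n), okap I m‖ ≤ 3 := by
    refine (norm_sum_le _ _).trans ?_
    refine (Finset.sum_le_sum fun m _ => norm_okap_I_le m).trans ?_
    rw [Finset.sum_const, Nat.card_Ioc]
    have : A + n - (A + 4 * k) ≤ 3 := by omega
    simp only [nsmul_eq_mul, mul_one]
    exact_mod_cast this
  have hcast : ((A + n : ℕ) : ℂ) - A = 4 * k + r := by
    rw [hn]; push_cast; ring
  have heq : (1 + I) * (k : ℂ) + ∑ m ∈ Ioc (A + 4 * k) (A + n), okap I m -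
      (1 + I) * (((A + n : ℕ) : ℂ) - A) / 4 =
      ∑ m ∈ Ioc (A + 4 * k) (A + n), okap I m - (1 + I) * ((r : ℝ) / 4 : ℝ) := by
    rw [hcast]; push_cast; ring
  rw [heq]
  refine (norm_sub_le _ _).trans ?_
  rw [norm_mul, Complex.norm_real, Real.norm_eq_abs, abs_of_nonneg (by positivity)]
  have h1 : (r : ℝ) ≤ 3 := by exact_mod_cast (by omega : r ≤ 3)
  have h2 : (0 : ℝ) ≤ r := by positivity
  have h3 := norm_one_add_I_le
  have h4 : ‖(1 + I : ℂ)‖ * ((r : ℝ) / 4) ≤ 2 * (3 / 4) := by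
    apply mul_le_mul h3 (by linarith) (by positivity) (by norm_num)
  linarith

end Pool.Agent.MP_291b24_nt
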