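import Mathlib
import Pool.Agent.Lib.MP_291b24_nt.Sieve

set_option autoImplicit false

open Finset ArithmeticFunction
open Complex (I)

namespace Pool.Agent.MP_291b24_nt

noncomputable def V (ζ : ℂ) (Z d : ℕ) : ℂ :=
  ∑ n ∈ (Ioc Z (2 * Z)).filter (fun n => d ^ 2 ∣ n), okap I n * ζ ^ n

lemma U_eq (ζ : ℂ) {Z D : ℕ} (hD : 2 * Z ≤ D ^ 2) :
    ∑ n ∈ Ioc Z (2 * Z), wt I n * ζ ^ n = ∑ d ∈ Icc 1 D, (moebius d : ℂ) * V ζ Z d := by
  have h1 : ∀ n ∈ Ioc Z (2 * Z), wt I n * ζ ^ n =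
      ∑ d ∈ Icc 1 D, (moebius d : ℂ) * (if d ^ 2 ∣ n then okap I n * ζ ^ n else 0) := by
    intro n hn
    rw [mem_Ioc] at hn
    have h2 := sqfree_indicator (n := n) (D := D) (by omega) (by omega)
    have h3 : wt I n = okap I n * (((if Squarefree n then 1 else 0 : ℤ)) : ℂ) := by
      unfold wt okap
      by_cases h4 : Odd n <;> by_cases h5 : Squarefree n <;> simp [h4, h5]
    rw [h3, ← h2]
    push_cast
    rw [Finset.mul_sum, Finset.sum_mul]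
    refine Finset.sum_congr rfl fun d _ => ?_
    split_ifs
    · ring
    · simp
  rw [Finset.sum_congr rfl h1, Finset.sum_comm]
  refine Finset.sum_congr rfl fun d _ => ?_
  rw [← Finset.mul_sum, V, Finset.sum_filter]

lemma V_even {ζ : ℂ} {Z d : ℕ} (hd : Even d) : V ζ Z d = 0 := by
  unfold V
  refine Finset.sum_eq_zero fun n hn => ?_
  rw [mem_filter] at hn
  have : ¬ Odd n := by
    rw [Nat.not_odd_iff_even]
    obtain ⟨k, hk⟩ := hd
    obtain ⟨m, hm⟩ := hn.2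
    refine ⟨2 * k * k * m, ?_⟩
    rw [hm, hk]; ring
  simp [okap, this]

lemma okap_odd_sq_mul {d : ℕ} (hd : Odd d) (m : ℕ) : okap I (d ^ 2 * m) = okap I m := by
  have h1 : d ^ 2 % 4 = 1 := by
    obtain ⟨k, rfl⟩ := hd
    have : (2 * k + 1) ^ 2 = 4 * (k ^ 2 + k) + 1 := by ring
    omega
  have h2 : (d ^ 2 * m) % 4 = m % 4 := by rw [Nat.mul_mod, h1]; omega
  have h3 : Odd (d ^ 2 * m) ↔ Odd m := by
    rw [Nat.odd_mul]
    constructor
    · exact fun h => h.2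
    · exact fun h => ⟨hd.pow, h⟩
  unfold okap kap
  simp only [h2, h3]

lemma V_odd {ζ : ℂ} {Z d : ℕ} (hd : Odd d) :
    V ζ Z d = ∑ m ∈ Ioc (Z / d ^ 2) (2 * Z / d ^ 2), okap I m * (ζ ^ d ^ 2) ^ m := by
  have hd0 : 0 < d ^ 2 := by
    have : 0 < d := hd.pos
    positivity
  unfold V
  rw [sum_filter_dvd _ hd0]
  refine Finset.sum_congr rfl fun m _ => ?_
  rw [okap_odd_sq_mul hd, pow_mul]

lemma norm_V_le {ζ : ℂ} {p : ℕ} (hp : p.Prime) (hp3 : 3 ≤ p) (hζ : IsPrimitiveRoot ζ (p ^ 2))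
    {Z d : ℕ} (hd : ¬ p ∣ d) : ‖V ζ Z d‖ ≤ 8 * p ^ 2 := by
  rcases Nat.even_or_odd d with he | ho
  · rw [V_even he, norm_zero]; positivity
  · rw [V_odd ho]
    have hζn : ‖ζ‖ = 1 := hζ.norm'_eq_one (by have := hp.pos; positivity)
    set η : ℂ := ζ ^ d ^ 2 with hη
    have hηn : ‖η‖ = 1 := by rw [hη, norm_pow, hζn, one_pow]
    have hshift : ∀ m, okap I (m + 4) * η ^ (m + 4) = η ^ 4 * (okap I m * η ^ m) := by
      intro m; rw [okap_add_four]; ring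
    have hbd : ∀ m, ‖okap I m * η ^ m‖ ≤ 1 := by
      intro m; rw [norm_mul, norm_pow, hηn, one_pow, mul_one]; exact norm_okap_I_le m
    have h1 := norm_sum_le_of_shift (fun m => okap I m * η ^ m) (η ^ 4) hshift hbd
      (Nat.div_le_div_right (c := d ^ 2) (by omega : Z ≤ 2 * Z))
    have hne : η ^ 4 ≠ 1 := by
      rw [hη, ← pow_mul, Ne, hζ.pow_eq_one_iff_dvd]
      intro h
      have h2 : p ∣ d ^ 2 * 4 := (dvd_pow_self p (by norm_num)).trans h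
      rcases (Nat.Prime.dvd_mul hp).1 h2 with h3 | h3
      · exact hd (hp.dvd_of_dvd_pow h3)
      · have h4 : p ∣ 2 ^ 2 := h3
        have h5 : p ∣ 2 := hp.dvd_of_dvd_pow h4
        have := Nat.le_of_dvd (by norm_num) h5
        omega
    have hone : (η ^ 4) ^ (p ^ 2) = 1 := by
      have e : (η ^ 4) ^ (p ^ 2) = (ζ ^ (p ^ 2)) ^ (4 * d ^ 2) := by
        rw [hη, ← pow_mul, ← pow_mul, ← pow_mul]; congr 1; ring
      rw [e, hζ.pow_eq_one, one_pow]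
    have h2 := root_sub_one_ge (P := p ^ 2) (by have := hp.pos; positivity) hone hne
    push_cast at h2
    have h3 : 0 ≤ ‖∑ m ∈ Ioc (Z / d ^ 2) (2 * Z / d ^ 2), okap I m * η ^ m‖ := norm_nonneg _
    nlinarith [norm_nonneg (η ^ 4 - 1), sq_nonneg (p : ℝ)]

lemma norm_V_sub_le {ζ : ℂ} {p : ℕ} (hζ : IsPrimitiveRoot ζ (p ^ 2))
    {Z e : ℕ} (ho : Odd (p * e)) :
    ‖V ζ Z (p * e) - (1 + I) * Z / (4 * ((p * e : ℕ) : ℂ) ^ 2)‖ ≤ 6 := by
  have hpos : 0 < (p * e) ^ 2 := by have := ho.pos; positivity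
  rw [V_odd ho]
  have h1 : ζ ^ (p * e) ^ 2 = 1 := by
    rw [mul_pow, pow_mul, hζ.pow_eq_one, one_pow]
  have h2 : ∀ m ∈ Ioc (Z / (p * e) ^ 2) (2 * Z / (p * e) ^ 2), okap I m * (ζ ^ (p * e) ^ 2) ^ m
      = okap I m := by
    intro m _; rw [h1, one_pow, mul_one]
  rw [Finset.sum_congr rfl h2]
  set q := (p * e) ^ 2 with hq
  have h3 := sum_okap_approx (Nat.div_le_div_right (c := q) (by omega : Z ≤ 2 * Z))
  have hqR : (0 : ℝ) < q := by exact_mod_cast hpos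
  -- real estimate on floors
  have hA1 : ((Z / q : ℕ) : ℝ) ≤ (Z : ℝ) / q := Nat.cast_div_le
  have hA2 : (Z : ℝ) / q < ((Z / q : ℕ) : ℝ) + 1 := by
    rw [div_lt_iff₀ hqR]
    have h0 : Z < (Z / q + 1) * q := by rw [mul_comm]; exact Nat.lt_mul_div_succ Z hpos
    exact_mod_cast h0
  have hB1 : ((2 * Z / q : ℕ) : ℝ) ≤ ((2 * Z : ℕ) : ℝ) / q := Nat.cast_div_le
  have hB2 : ((2 * Z : ℕ) : ℝ) / q < ((2 * Z / q : ℕ) : ℝ) + 1 := by
    rw [div_lt_iff₀ hqR]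
    have h0 : 2 * Z < (2 * Z / q + 1) * q := (Nat.lt_mul_div_succ (2 * Z) hpos).trans_eq (mul_comm _ _)
    exact_mod_cast h0
  have hdiff : |(((2 * Z / q : ℕ) : ℝ) - ((Z / q : ℕ) : ℝ)) - (Z : ℝ) / q| ≤ 1 := by
    have e : ((2 * Z : ℕ) : ℝ) / q = 2 * ((Z : ℝ) / q) := by push_cast; ring
    rw [e] at hB1 hB2
    rw [abs_le]
    constructor <;> linarith
  have heq : (∑ m ∈ Ioc (Z / q) (2 * Z / q), okap I m) - (1 + I) * Z / (4 * ((p * e : ℕ) : ℂ) ^ 2) =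
      ((∑ m ∈ Ioc (Z / q) (2 * Z / q), okap I m) -
        (1 + I) * (((2 * Z / q : ℕ) : ℂ) - ((Z / q : ℕ) : ℂ)) / 4) +
      (1 + I) * (((((((2 * Z / q : ℕ) : ℝ) - ((Z / q : ℕ) : ℝ)) - (Z : ℝ) / q) / 4 : ℝ)) : ℂ) := by
    have hqC : (q : ℂ) ≠ 0 := by exact_mod_cast hpos.ne'
    have : ((p * e : ℕ) : ℂ) ^ 2 = (q : ℂ) := by rw [hq]; push_cast; ring
    rw [this]
    push_cast
    field_simp
    ring
  rw [heq]
  refine (norm_add_le _ _).trans ?_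
  have h4 : ‖(1 + I) * (((((((2 * Z / q : ℕ) : ℝ) - ((Z / q : ℕ) : ℝ)) - (Z : ℝ) / q) / 4 : ℝ)) : ℂ)‖ ≤ 1 := by
    rw [norm_mul, Complex.norm_real, Real.norm_eq_abs, abs_div]
    have := norm_one_add_I_le
    have h5 : |((2 * Z / q : ℕ) : ℝ) - ((Z / q : ℕ) : ℝ) - (Z : ℝ) / q| / |(4 : ℝ)| ≤ 1 / 4 := by
      rw [abs_of_pos (by norm_num : (0 : ℝ) < 4)]
      linarith
    have h6 : ‖(1 + I : ℂ)‖ * (|((2 * Z / q : ℕ) : ℝ) - ((Z / q : ℕ) : ℝ) - (Z : ℝ) / q| / |(4 : ℝ)|)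
        ≤ 2 * (1 / 4) := mul_le_mul this h5 (by positivity) (by norm_num)
    linarith
  linarith

lemma sum_inv_sq_le {N : ℕ} (hN : 2 ≤ N) :
    ∑ e ∈ Icc 3 N, (1 : ℝ) / (e : ℝ) ^ 2 ≤ 1 / 2 - 1 / (N : ℝ) := by
  induction N, hN using Nat.le_induction with
  | base => norm_num
  | succ N hN ih =>
    rw [Finset.sum_Icc_succ_top (by omega)]
    have hN' : (0 : ℝ) < N := by positivity
    have h : 1 / ((N + 1 : ℕ) : ℝ) ^ 2 ≤ 1 / (N : ℝ) - 1 / ((N + 1 : ℕ) : ℝ) := by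
      push_cast
      rw [div_sub_div _ _ (by positivity) (by positivity), div_le_div_iff₀ (by positivity) (by positivity)]
      nlinarith
    linarith

theorem sieve_lower {ζ : ℂ} {p : ℕ} (hp : p.Prime) (hp3 : 3 ≤ p) (hζ : IsPrimitiveRoot ζ (p ^ 2)) :
    (p : ℝ) ^ 17 / 8 - 14 * p ^ 12 ≤
      ‖∑ n ∈ Ioc (p ^ 19) (2 * p ^ 19), wt I n * ζ ^ n‖ := by
  have hp0 : (0 : ℝ) < p := by have := hp.pos; exact_mod_cast this
  have hpN : 0 < p := hp.pos
  set Z := p ^ 19 with hZ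
  set D := p ^ 10 with hD
  have hZD : 2 * Z ≤ D ^ 2 := by
    rw [hZ, hD, ← pow_mul]
    calc 2 * p ^ 19 ≤ p * p ^ 19 := by gcongr; omega
      _ = p ^ (10 * 2) := by ring
  rw [U_eq ζ hZD]
  rw [← Finset.sum_filter_add_sum_filter_not (Icc 1 D) (fun d => p ∣ d)]
  -- the part coprime to p
  have hpart2 : ‖∑ d ∈ (Icc 1 D).filter (fun d => ¬ p ∣ d), (moebius d : ℂ) * V ζ Z d‖
      ≤ 8 * (p : ℝ) ^ 12 := by
    refine (norm_sum_le _ _).trans ?_
    have h1 : ∀ d ∈ (Icc 1 D).filter (fun d => ¬ p ∣ d), ‖(moebius d : ℂ) * V ζ Z d‖ ≤ 8 * (p : ℝ) ^ 2 := by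
      intro d hd
      rw [mem_filter] at hd
      rw [norm_mul]
      have h2 : ‖(moebius d : ℂ)‖ ≤ 1 := by
        rw [Complex.norm_intCast]
        exact_mod_cast abs_moebius_le_one
      have h3 := norm_V_le hp hp3 hζ (Z := Z) hd.2
      calc _ ≤ 1 * (8 * (p : ℝ) ^ 2) := mul_le_mul h2 h3 (norm_nonneg _) (by norm_num)
        _ = _ := by ring
    refine (Finset.sum_le_sum h1).trans ?_
    rw [Finset.sum_const, nsmul_eq_mul]
    have h4 : (((Icc 1 D).filter (fun d => ¬ p ∣ d)).card : ℝ) ≤ (p : ℝ) ^ 10 := by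
      have := (Finset.card_filter_le (Icc 1 D) (fun d => ¬ p ∣ d))
      rw [Nat.card_Icc, Nat.add_sub_cancel] at this
      rw [hD] at this
      exact_mod_cast this
    calc _ ≤ (p : ℝ) ^ 10 * (8 * (p : ℝ) ^ 2) := by gcongr
      _ = _ := by ring
  -- reindex the part divisible by p
  have hre : ∑ d ∈ (Icc 1 D).filter (fun d => p ∣ d), (moebius d : ℂ) * V ζ Z d =
      ∑ e ∈ Icc 1 (p ^ 9), (moebius (p * e) : ℂ) * V ζ Z (p * e) := by
    symm
    refine Finset.sum_bij (fun e _ => p * e) ?_ ?_ ?_ ?_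
    · intro e he
      rw [mem_Icc] at he
      rw [mem_filter, mem_Icc]
      refine ⟨⟨?_, ?_⟩, dvd_mul_right _ _⟩
      · have := Nat.mul_pos hpN he.1; omega
      · calc p * e ≤ p * p ^ 9 := Nat.mul_le_mul_left _ he.2
          _ = D := by rw [hD]; ring
    · intro a _ b _ h
      exact Nat.eq_of_mul_eq_mul_left hpN h
    · intro d hd
      rw [mem_filter, mem_Icc] at hd
      obtain ⟨⟨h1, h2⟩, e, rfl⟩ := hd
      refine ⟨e, ?_, rfl⟩
      rw [mem_Icc]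
      constructor
      · rcases Nat.eq_zero_or_pos e with h | h
        · subst h; simp at h1
        · exact h
      · rw [hD, (by ring : p ^ 10 = p * p ^ 9)] at h2
        exact Nat.le_of_mul_le_mul_left h2 hpN
    · intro e _; rfl
  rw [hre]
  -- main term
  let c : ℕ → ℂ := fun e => if Odd e then (moebius (p * e) : ℂ) / (e : ℂ) ^ 2 else 0
  have hpodd : Odd p := hp.odd_of_ne_two (by omega)
  have hpC : (p : ℂ) ≠ 0 := by exact_mod_cast hpN.ne'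
  have happrox : ‖(∑ e ∈ Icc 1 (p ^ 9), (moebius (p * e) : ℂ) * V ζ Z (p * e)) -
      (1 + I) * Z / (4 * (p : ℂ) ^ 2) * ∑ e ∈ Icc 1 (p ^ 9), c e‖ ≤ 6 * (p : ℝ) ^ 9 := by
    rw [Finset.mul_sum, ← Finset.sum_sub_distrib]
    refine (norm_sum_le _ _).trans ?_
    have h1 : ∀ e ∈ Icc 1 (p ^ 9), ‖(moebius (p * e) : ℂ) * V ζ Z (p * e) -
        (1 + I) * Z / (4 * (p : ℂ) ^ 2) * c e‖ ≤ 6 := by
      intro e he
      rw [mem_Icc] at he
      have heC : (e : ℂ) ≠ 0 := by exact_mod_cast (by omega : e ≠ 0)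
      rcases Nat.even_or_odd e with h | h
      · have h2 : Even (p * e) := h.mul_left p
        have h3 : c e = 0 := by simp [c, Nat.not_odd_iff_even.2 h]
        rw [V_even h2, h3]; simp
      · have h3 : c e = (moebius (p * e) : ℂ) / (e : ℂ) ^ 2 := by simp [c, h]
        have h4 : (moebius (p * e) : ℂ) * V ζ Z (p * e) - (1 + I) * Z / (4 * (p : ℂ) ^ 2) * c e =
            (moebius (p * e) : ℂ) * (V ζ Z (p * e) - (1 + I) * Z / (4 * ((p * e : ℕ) : ℂ) ^ 2)) := by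
          rw [h3]; push_cast; field_simp
        rw [h4, norm_mul]
        have h5 : ‖(moebius (p * e) : ℂ)‖ ≤ 1 := by
          rw [Complex.norm_intCast]
          exact_mod_cast abs_moebius_le_one
        have h6 := norm_V_sub_le hζ (Z := Z) (e := e) (hpodd.mul h)
        calc _ ≤ 1 * (6 : ℝ) := mul_le_mul h5 h6 (norm_nonneg _) (by norm_num)
          _ = 6 := by ring
    refine (Finset.sum_le_sum h1).trans ?_
    rw [Finset.sum_const, Nat.card_Icc, Nat.add_sub_cancel, nsmul_eq_mul]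
    push_cast
    linarith
  have hc : 1 / 2 ≤ ‖∑ e ∈ Icc 1 (p ^ 9), c e‖ := by
    have h9 : 2 ≤ p ^ 9 := by
      calc 2 ≤ p := by omega
        _ = p ^ 1 := by ring
        _ ≤ p ^ 9 := Nat.pow_le_pow_right hpN (by norm_num)
    have h1 : Icc 1 (p ^ 9) = insert 1 (insert 2 (Icc 3 (p ^ 9))) := by
      ext x; simp only [mem_Icc, mem_insert]; omega
    rw [h1, Finset.sum_insert (by simp), Finset.sum_insert (by simp)]
    have hc1 : c 1 = -1 := by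
      simp only [c, odd_one, if_true, mul_one]
      rw [moebius_apply_prime hp]; simp
    have hc2 : c 2 = 0 := by
      simp only [c]
      rw [if_neg (by decide)]
    rw [hc1, hc2, zero_add]
    have hs : ‖∑ e ∈ Icc 3 (p ^ 9), c e‖ ≤ 1 / 2 := by
      refine (norm_sum_le _ _).trans ?_
      have h2 : ∀ e ∈ Icc 3 (p ^ 9), ‖c e‖ ≤ 1 / (e : ℝ) ^ 2 := by
        intro e he
        rw [mem_Icc] at he
        simp only [c]
        split_ifs
        · rw [norm_div, norm_pow, Complex.norm_natCast]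
          have : ‖(moebius (p * e) : ℂ)‖ ≤ 1 := by
            rw [Complex.norm_intCast]
            exact_mod_cast abs_moebius_le_one
          gcongr
        · simp
      refine (Finset.sum_le_sum h2).trans ?_
      have := sum_inv_sq_le h9
      have h3 : (0 : ℝ) ≤ 1 / ((p ^ 9 : ℕ) : ℝ) := by positivity
      linarith
    have := norm_sub_norm_le (-1 : ℂ) (-(∑ e ∈ Icc 3 (p ^ 9), c e))
    rw [norm_neg, norm_neg, norm_one, sub_neg_eq_add] at this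
    linarith
  -- combine
  set A := ∑ e ∈ Icc 1 (p ^ 9), (moebius (p * e) : ℂ) * V ζ Z (p * e) with hA
  set Bq := ∑ d ∈ (Icc 1 D).filter (fun d => ¬ p ∣ d), (moebius d : ℂ) * V ζ Z d with hBq
  set M := (1 + I) * Z / (4 * (p : ℂ) ^ 2) * ∑ e ∈ Icc 1 (p ^ 9), c e with hM
  have hMn : (p : ℝ) ^ 17 / 8 ≤ ‖M‖ := by
    rw [hM, norm_mul, norm_div, norm_mul, norm_mul, norm_pow, Complex.norm_natCast,
      Complex.norm_natCast]
    have h1 := one_le_norm_one_add_I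
    have h2 : (Z : ℝ) = (p : ℝ) ^ 19 := by rw [hZ]; push_cast; ring
    have h3 : ‖(4 : ℂ)‖ = 4 := by simp
    rw [h2, h3]
    have h4 : (p : ℝ) ^ 17 / 4 ≤ ‖(1 + I : ℂ)‖ * (p : ℝ) ^ 19 / (4 * (p : ℝ) ^ 2) := by
      rw [le_div_iff₀ (by positivity)]
      have : (p : ℝ) ^ 17 / 4 * (4 * (p : ℝ) ^ 2) = 1 * (p : ℝ) ^ 19 := by ring
      rw [this]
      gcongr
    calc (p : ℝ) ^ 17 / 8 = (p : ℝ) ^ 17 / 4 * (1 / 2) := by ring
      _ ≤ _ := mul_le_mul h4 hc (by norm_num) (by positivity)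
  have hfin : ‖M‖ - 6 * (p : ℝ) ^ 9 - 8 * (p : ℝ) ^ 12 ≤ ‖A + Bq‖ := by
    have h1 : ‖M‖ ≤ ‖A + Bq‖ + ‖A - M‖ + ‖Bq‖ := by
      have : M = (A + Bq) - (A - M) - Bq := by ring
      calc ‖M‖ = ‖(A + Bq) - (A - M) - Bq‖ := by rw [← this]
        _ ≤ ‖(A + Bq) - (A - M)‖ + ‖Bq‖ := norm_sub_le _ _
        _ ≤ _ := by gcongr; exact norm_sub_le _ _
    linarith
  have h912 : (p : ℝ) ^ 9 ≤ (p : ℝ) ^ 12 := pow_le_pow_right₀ (by exact_mod_cast hpN) (by norm_num)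
  linarith

end Pool.Agent.MP_291b24_nt
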