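import Mathlib
import Pool.Agent.Lib.MP_291b24_nt.Sieve2

set_option autoImplicit false

open Finset
open Complex (I)

namespace Pool.Agent.MP_291b24_nt

lemma abel_bound (b g : ℕ → ℂ) (h : ℕ) {M G δ : ℝ} (hM0 : 0 ≤ M) (hG0 : 0 ≤ G) (hδ0 : 0 ≤ δ)
    (hM : ∀ j ≤ h, ‖∑ i ∈ range j, b i‖ ≤ M) (hG : ∀ j < h, ‖g j‖ ≤ G)
    (hδ : ∀ j, j + 1 < h → ‖g (j + 1) - g j‖ ≤ δ) :
    ‖∑ i ∈ range h, g i * b i‖ ≤ (G + h * δ) * M := by
  rcases Nat.eq_zero_or_pos h with h0 | h0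
  · subst h0; simp; positivity
  · have h1 := Finset.sum_range_by_parts g b h
    simp only [smul_eq_mul] at h1
    rw [h1]
    refine (norm_sub_le _ _).trans ?_
    have h2 : ‖g (h - 1) * ∑ i ∈ range h, b i‖ ≤ G * M := by
      rw [norm_mul]
      exact mul_le_mul (hG _ (by omega)) (hM _ le_rfl) (norm_nonneg _) hG0
    have h3 : ‖∑ i ∈ range (h - 1), (g (i + 1) - g i) * ∑ j ∈ range (i + 1), b j‖ ≤ h * δ * M := by
      refine (norm_sum_le _ _).trans ?_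
      have h4 : ∀ i ∈ range (h - 1), ‖(g (i + 1) - g i) * ∑ j ∈ range (i + 1), b j‖ ≤ δ * M := by
        intro i hi
        rw [mem_range] at hi
        rw [norm_mul]
        exact mul_le_mul (hδ i (by omega)) (hM _ (by omega)) (norm_nonneg _) hδ0
      refine (Finset.sum_le_sum h4).trans ?_
      rw [Finset.sum_const, card_range, nsmul_eq_mul]
      have : ((h - 1 : ℕ) : ℝ) ≤ h := by exact_mod_cast Nat.sub_le _ _
      calc ((h - 1 : ℕ) : ℝ) * (δ * M) ≤ h * (δ * M) := by gcongr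
        _ = _ := by ring
    calc _ ≤ G * M + h * δ * M := add_le_add h2 h3
      _ = _ := by ring

/-- the partial sums -/
noncomputable def A (ρ : ℂ) (σ t : ℝ) (N : ℕ) : ℂ :=
  ∑ n ∈ Ioc 0 N, wt ρ n * (n : ℂ) ^ ((σ : ℂ) + t * I)

lemma log_diff_bounds {n : ℕ} (hn : 0 < n) :
    1 / ((n : ℝ) + 1) ≤ Real.log (n + 1) - Real.log n ∧
      Real.log (n + 1) - Real.log n ≤ 1 / (n : ℝ) := by
  have hn' : (0 : ℝ) < n := by exact_mod_cast hn
  have h1 : Real.log ((n : ℝ) + 1) - Real.log n = Real.log (((n : ℝ) + 1) / n) := by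
    rw [Real.log_div (by positivity) (by positivity)]
  rw [h1]
  constructor
  · have := Real.one_sub_inv_le_log_of_pos (x := ((n : ℝ) + 1) / n) (by positivity)
    refine le_trans (le_of_eq ?_) this
    field_simp
    ring
  · have := Real.log_le_sub_one_of_pos (x := ((n : ℝ) + 1) / n) (by positivity)
    refine this.trans (le_of_eq ?_)
    field_simp
    ring

lemma block_bound {p : ℕ} (hp16 : 16 ≤ p) {Z : ℕ} (hZ1 : p ^ 19 ≤ Z) {σ t M : ℝ}
    (hσ0 : 0 ≤ σ) (hσ1 : σ ≤ 1) (ht : t = 2 * Real.pi * Z / p ^ 2) (ρ : ℂ)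
    (hA : ∀ N, Z ≤ N → N ≤ Z + p ^ 10 → ‖A ρ σ t N‖ ≤ M) :
    ‖∑ n ∈ Ioc Z (Z + p ^ 10), wt ρ n * (Complex.exp (2 * Real.pi * I / (p ^ 2 : ℕ))) ^ n‖
      ≤ 4 * M * (Z : ℝ) ^ (-σ) := by
  have hp0 : (0 : ℝ) < p := by
    have : 0 < p := by omega
    exact_mod_cast this
  have hp16' : (16 : ℝ) ≤ p := by exact_mod_cast hp16
  have hZpos : 0 < Z := lt_of_lt_of_le (by positivity) hZ1
  have hZ0 : (0 : ℝ) < Z := by exact_mod_cast hZpos
  have hZ19 : (p : ℝ) ^ 19 ≤ Z := by exact_mod_cast hZ1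
  have hM0 : 0 ≤ M := (norm_nonneg _).trans (hA Z le_rfl (by omega))
  set ζ : ℂ := Complex.exp (2 * Real.pi * I / (p ^ 2 : ℕ)) with hζ
  set H := p ^ 10 with hH
  let b : ℕ → ℂ := fun j => wt ρ (Z + 1 + j) * ((Z + 1 + j : ℕ) : ℂ) ^ ((σ : ℂ) + t * I)
  let g : ℕ → ℂ := fun j => Complex.exp (-((σ : ℂ) + t * I) * (Real.log ((Z + 1 + j : ℕ) : ℝ) : ℂ)
    + 2 * Real.pi * I * ((Z + 1 + j : ℕ) : ℂ) / (p : ℂ) ^ 2)
  -- rewriting the sum
  have hsum : ∑ n ∈ Ioc Z (Z + H), wt ρ n * ζ ^ n = ∑ j ∈ range H, g j * b j := by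
    have hshift : ∑ n ∈ Ioc Z (Z + H), wt ρ n * ζ ^ n =
        ∑ j ∈ range H, wt ρ (Z + 1 + j) * ζ ^ (Z + 1 + j) := by
      symm
      refine Finset.sum_bij (fun j _ => Z + 1 + j) ?_ ?_ ?_ ?_
      · intro j hj; rw [mem_range] at hj; rw [mem_Ioc]; omega
      · intro a _ b _ h; omega
      · intro n hn; rw [mem_Ioc] at hn
        exact ⟨n - (Z + 1), by rw [mem_range]; omega, by omega⟩
      · intro j _; rfl
    rw [hshift]
    refine Finset.sum_congr rfl fun j _ => ?_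
    set n := Z + 1 + j with hn
    have hnpos : 0 < n := by omega
    have hnC : (n : ℂ) ≠ 0 := by exact_mod_cast hnpos.ne'
    have h1 : g j = ((n : ℂ) ^ ((σ : ℂ) + t * I))⁻¹ * ζ ^ n := by
      simp only [g]
      rw [← hn, Complex.exp_add, Complex.cpow_def_of_ne_zero hnC, ← Complex.exp_neg, hζ,
        ← Complex.exp_nat_mul]
      rw [← Complex.ofReal_natCast n, ← Complex.ofReal_log (by positivity)]
      congr 1
      · congr 1; ring
      · congr 1; push_cast; ring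
    have h2 : (n : ℂ) ^ ((σ : ℂ) + t * I) ≠ 0 := by
      rw [Complex.cpow_def_of_ne_zero hnC]; exact Complex.exp_ne_zero _
    rw [h1]
    simp only [b]
    rw [← hn]
    field_simp
  rw [hsum]
  have hZσ : 0 < (Z : ℝ) ^ (-σ) := Real.rpow_pos_of_pos hZ0 _
  have hgn : ∀ j, ‖g j‖ ≤ (Z : ℝ) ^ (-σ) := by
    intro j
    simp only [g]
    rw [Complex.norm_exp]
    have hn0 : (0 : ℝ) < ((Z + 1 + j : ℕ) : ℝ) := by positivity
    have h1 : (-((σ : ℂ) + t * I) * (Real.log ((Z + 1 + j : ℕ) : ℝ) : ℂ)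
        + 2 * Real.pi * I * ((Z + 1 + j : ℕ) : ℂ) / (p : ℂ) ^ 2).re
        = -σ * Real.log ((Z + 1 + j : ℕ) : ℝ) := by
      have : (-((σ : ℂ) + t * I) * (Real.log ((Z + 1 + j : ℕ) : ℝ) : ℂ)
        + 2 * Real.pi * I * ((Z + 1 + j : ℕ) : ℂ) / (p : ℂ) ^ 2) =
        ((-σ * Real.log ((Z + 1 + j : ℕ) : ℝ) : ℝ) : ℂ) +
        ((-t * Real.log ((Z + 1 + j : ℕ) : ℝ) + 2 * Real.pi * ((Z + 1 + j : ℕ) : ℝ) / (p : ℝ) ^ 2 : ℝ) : ℂ) * I := by
        push_cast; ring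
      rw [this]; simp only [Complex.add_re, Complex.ofReal_re, Complex.re_ofReal_mul, Complex.I_re, mul_zero, add_zero]
    rw [h1, mul_comm, ← Real.rpow_def_of_pos hn0]
    apply Real.rpow_le_rpow_of_nonpos hZ0
    · push_cast; linarith [(Nat.cast_nonneg j : (0 : ℝ) ≤ j)]
    · linarith
  have hgd : ∀ j, j + 1 < H → ‖g (j + 1) - g j‖ ≤ (Z : ℝ) ^ (-σ) * (16 * (p : ℝ) ^ 8 / Z) := by
    intro j hj
    set n := Z + 1 + j with hn
    have hnpos : 0 < n := by omega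
    have hn1 : (Z : ℝ) ≤ n := by exact_mod_cast (by omega : Z ≤ n)
    have hn0 : (0 : ℝ) < n := by exact_mod_cast hnpos
    have hn2 : (n : ℝ) + 1 - Z ≤ (p : ℝ) ^ 10 := by
      have : n + 1 ≤ Z + p ^ 10 := by omega
      have : (n : ℝ) + 1 ≤ Z + (p : ℝ) ^ 10 := by exact_mod_cast this
      linarith
    obtain ⟨hL1, hL2⟩ := log_diff_bounds hnpos
    set L := Real.log ((n : ℝ) + 1) - Real.log n with hL
    set w : ℂ := ((-(σ * L) : ℝ) : ℂ) + ((2 * Real.pi / p ^ 2 - t * L : ℝ) : ℂ) * I with hw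
    have hgw : g (j + 1) = g j * Complex.exp w := by
      simp only [g]
      rw [← Complex.exp_add]
      congr 1
      have e1 : ((Z + 1 + (j + 1) : ℕ) : ℝ) = (n : ℝ) + 1 := by rw [hn]; push_cast; ring
      have e2 : ((Z + 1 + (j + 1) : ℕ) : ℂ) = (n : ℂ) + 1 := by rw [hn]; push_cast; ring
      rw [e1, e2, ← hn, hw, hL]
      push_cast
      ring
    have ht0 : 0 ≤ t := by rw [ht]; positivity
    have htZ : t / Z = 2 * Real.pi / p ^ 2 := by rw [ht]; field_simp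
    have hwn : ‖w‖ ≤ 8 * (p : ℝ) ^ 8 / Z := by
      rw [hw]
      refine (norm_add_le _ _).trans ?_
      rw [norm_mul, Complex.norm_I, mul_one, Complex.norm_real, Complex.norm_real, Real.norm_eq_abs,
        Real.norm_eq_abs, abs_neg]
      have hL0 : 0 ≤ L := le_trans (by positivity) hL1
      have a1 : |σ * L| ≤ 1 / Z := by
        rw [abs_of_nonneg (mul_nonneg hσ0 hL0)]
        calc σ * L ≤ 1 * (1 / n) := mul_le_mul hσ1 hL2 hL0 (by norm_num)
          _ ≤ 1 / Z := by rw [one_mul]; exact one_div_le_one_div_of_le hZ0 hn1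
      have a2 : |2 * Real.pi / p ^ 2 - t * L| ≤ 2 * Real.pi * (p : ℝ) ^ 8 / Z := by
        rw [← htZ]
        have e1 : t / Z - t * L = t * (1 / Z - L) := by ring
        have e2 : 0 ≤ 1 / (Z : ℝ) - L := by
          have := one_div_le_one_div_of_le hZ0 hn1
          linarith
        rw [e1, abs_of_nonneg (mul_nonneg ht0 e2)]
        have e3 : 1 / (Z : ℝ) - L ≤ (p : ℝ) ^ 10 / (Z * Z) := by
          calc 1 / (Z : ℝ) - L ≤ 1 / (Z : ℝ) - 1 / (n + 1) := by linarith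
            _ = ((n : ℝ) + 1 - Z) / (Z * (n + 1)) := by field_simp
            _ ≤ (p : ℝ) ^ 10 / (Z * Z) := by
              apply div_le_div₀ (by positivity) hn2 (by positivity)
              exact mul_le_mul_of_nonneg_left (by linarith) hZ0.le
        calc t * (1 / Z - L) ≤ t * ((p : ℝ) ^ 10 / (Z * Z)) := mul_le_mul_of_nonneg_left e3 ht0
          _ = 2 * Real.pi * (p : ℝ) ^ 8 / Z := by rw [ht]; field_simp
      have hp8 : (1 : ℝ) ≤ (p : ℝ) ^ 8 := one_le_pow₀ (by linarith)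
      have hpi := Real.pi_lt_d2
      calc |σ * L| + |2 * Real.pi / p ^ 2 - t * L| ≤ 1 / Z + 2 * Real.pi * (p : ℝ) ^ 8 / Z := add_le_add a1 a2
        _ = (1 + 2 * Real.pi * (p : ℝ) ^ 8) / Z := by ring
        _ ≤ 8 * (p : ℝ) ^ 8 / Z := by
          apply div_le_div_of_nonneg_right _ hZ0.le
          nlinarith
    have hw1 : ‖w‖ ≤ 1 := by
      refine hwn.trans ?_
      rw [div_le_one hZ0]
      calc 8 * (p : ℝ) ^ 8 ≤ (p : ℝ) * (p : ℝ) ^ 8 := by gcongr; linarith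
        _ = (p : ℝ) ^ 9 := by ring
        _ ≤ (p : ℝ) ^ 19 := pow_le_pow_right₀ (by linarith) (by norm_num)
        _ ≤ Z := hZ19
    have hexp := Complex.norm_exp_sub_one_le hw1
    have e4 : g (j + 1) - g j = g j * (Complex.exp w - 1) := by rw [hgw]; ring
    rw [e4, norm_mul]
    refine mul_le_mul (hgn j) ?_ (norm_nonneg _) hZσ.le
    calc _ ≤ 2 * ‖w‖ := hexp
      _ ≤ 2 * (8 * (p : ℝ) ^ 8 / Z) := by linarith
      _ = _ := by ring
  have hb : ∀ j ≤ H, ‖∑ i ∈ range j, b i‖ ≤ 2 * M := by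
    intro j hj
    have h1 : ∑ i ∈ range j, b i = A ρ σ t (Z + j) - A ρ σ t Z := by
      rw [eq_sub_iff_add_eq', A, A, ← Finset.sum_Ioc_consecutive _ (Nat.zero_le Z) (by omega : Z ≤ Z + j)]
      congr 1
      refine Finset.sum_bij (fun i _ => Z + 1 + i) ?_ ?_ ?_ ?_
      · intro i hi; rw [mem_range] at hi; rw [mem_Ioc]; omega
      · intro a _ b _ h; omega
      · intro n hn; rw [mem_Ioc] at hn
        exact ⟨n - (Z + 1), by rw [mem_range]; omega, by omega⟩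
      · intro i _; rfl
    rw [h1]
    have h2 := hA (Z + j) (by omega) (by omega)
    have h3 := hA Z le_rfl (by omega)
    have := norm_sub_le (A ρ σ t (Z + j)) (A ρ σ t Z)
    linarith
  have hmain := abel_bound b g H (M := 2 * M) (G := (Z : ℝ) ^ (-σ))
    (δ := (Z : ℝ) ^ (-σ) * (16 * (p : ℝ) ^ 8 / Z)) (by linarith) hZσ.le (by positivity) hb
    (fun j _ => hgn j) hgd
  refine hmain.trans ?_
  have hHδ : (H : ℝ) * ((Z : ℝ) ^ (-σ) * (16 * (p : ℝ) ^ 8 / Z)) ≤ (Z : ℝ) ^ (-σ) := by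
    have e1 : (H : ℝ) * ((Z : ℝ) ^ (-σ) * (16 * (p : ℝ) ^ 8 / Z)) =
        (Z : ℝ) ^ (-σ) * (16 * (p : ℝ) ^ 18 / Z) := by
      rw [hH]; push_cast; ring
    rw [e1]
    have e2 : 16 * (p : ℝ) ^ 18 / Z ≤ 1 := by
      rw [div_le_one hZ0]
      calc 16 * (p : ℝ) ^ 18 ≤ (p : ℝ) * (p : ℝ) ^ 18 := by gcongr
        _ = (p : ℝ) ^ 19 := by ring
        _ ≤ Z := hZ19
    calc _ ≤ (Z : ℝ) ^ (-σ) * 1 := by gcongr
      _ = _ := mul_one _
  calc ((Z : ℝ) ^ (-σ) + H * ((Z : ℝ) ^ (-σ) * (16 * (p : ℝ) ^ 8 / Z))) * (2 * M)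
      ≤ ((Z : ℝ) ^ (-σ) + (Z : ℝ) ^ (-σ)) * (2 * M) := by gcongr
    _ = _ := by ring

end Pool.Agent.MP_291b24_nt
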