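import Mathlib

set_option autoImplicit false

open Complex Filter Topology

namespace Pool.Agent.MP_291b24_nt

lemma summable_gauss_char {w : ℂ} (hw : 0 < w.re) (c : ℂ) :
    Summable (fun m : ℤ => cexp (-Real.pi * w * m ^ 2 + 2 * Real.pi * I * c * m)) := by
  have h := (summable_jacobiTheta₂_term_iff c (I * w)).2 (by simpa using hw)
  refine h.congr fun m => ?_
  unfold jacobiTheta₂_term
  congr 1
  have hI : I * I = -1 := I_mul_I
  linear_combination (Real.pi * (m : ℂ) ^ 2 * w) * hI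

/-- Tail estimate: the twisted Gaussian sum tends to its `m = 0` term. -/
lemma tendsto_gauss_char {ι : Type*} {l : Filter ι} {w : ι → ℂ}
    (hw : Tendsto (fun i => (w i).re) l atTop) (c : ℝ) :
    Tendsto (fun i => ∑' m : ℤ, cexp (-Real.pi * w i * m ^ 2 + 2 * Real.pi * I * c * m)) l (𝓝 1) := by
  have key : Tendsto (fun i => ∑' m : ℤ, cexp (-Real.pi * w i * m ^ 2 + 2 * Real.pi * I * c * m)) l
      (𝓝 (∑' m : ℤ, (if m = 0 then (1 : ℂ) else 0))) := by
    refine tendsto_tsum_of_dominated_convergence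
      (bound := fun m : ℤ => ‖cexp (-Real.pi * (1 : ℂ) * m ^ 2 + 2 * Real.pi * I * 0 * m)‖)
      (summable_gauss_char (by simp) 0).norm ?_ ?_
    · intro m
      by_cases hm : m = 0
      · subst hm; simp only [if_true]; simp; exact tendsto_const_nhds
      · simp only [hm, if_false]
        rw [tendsto_zero_iff_norm_tendsto_zero]
        have : ∀ i, ‖cexp (-Real.pi * w i * m ^ 2 + 2 * Real.pi * I * c * m)‖
            = Real.exp (-(Real.pi * m ^ 2 * (w i).re)) := by
          intro i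
          rw [Complex.norm_exp]
          congr 1
          have : (-Real.pi * w i * m ^ 2 + 2 * Real.pi * I * c * m : ℂ)
              = ((-(Real.pi * m ^ 2) : ℝ) : ℂ) * w i + ((2 * Real.pi * c * m : ℝ) : ℂ) * I := by
            push_cast; ring
          rw [this, add_re, re_ofReal_mul, re_ofReal_mul]
          simp
        simp_rw [this]
        have hm2 : 0 < Real.pi * (m : ℝ) ^ 2 := by positivity
        exact Real.tendsto_exp_neg_atTop_nhds_zero.comp (hw.const_mul_atTop hm2)
    · filter_upwards [hw.eventually_ge_atTop 1] with i hi m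
      rw [Complex.norm_exp, Complex.norm_exp]
      apply Real.exp_le_exp.2
      have h1 : (-Real.pi * w i * m ^ 2 + 2 * Real.pi * I * c * m : ℂ)
          = ((-(Real.pi * m ^ 2) : ℝ) : ℂ) * w i + ((2 * Real.pi * c * m : ℝ) : ℂ) * I := by
        push_cast; ring
      have h2 : (-Real.pi * (1 : ℂ) * m ^ 2 + 2 * Real.pi * I * 0 * m : ℂ)
          = ((-(Real.pi * m ^ 2) : ℝ) : ℂ) := by
        push_cast; ring
      rw [h1, h2, add_re, re_ofReal_mul, re_ofReal_mul, ofReal_re]
      simp only [I_re, mul_zero, add_zero]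
      have : 0 ≤ Real.pi * (m : ℝ) ^ 2 := by positivity
      nlinarith
  simpa using key

/-- Poisson summation for a Gaussian over a residue class. -/
lemma theta_class {z : ℂ} (hz : 0 < z.re) {N : ℕ} (hN : 0 < N) (r : ℤ) :
    ∑' m : ℤ, cexp (-Real.pi * z * ((m : ℂ) * N + r) ^ 2) =
      1 / (z * N ^ 2) ^ (2⁻¹ : ℂ) *
        ∑' m : ℤ, cexp (-Real.pi * (1 / (z * N ^ 2)) * m ^ 2
          + 2 * Real.pi * I * ((r / N : ℝ) : ℂ) * m) := by
  have hN' : (N : ℂ) ≠ 0 := by exact_mod_cast hN.ne'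
  have hz0 : z ≠ 0 := by rintro rfl; simp at hz
  have ha : 0 < (z * (N : ℂ) ^ 2).re := by
    have : z * (N : ℂ) ^ 2 = ((N ^ 2 : ℝ) : ℂ) * z := by push_cast; ring
    rw [this, re_ofReal_mul]
    have : (0 : ℝ) < N := by exact_mod_cast hN
    positivity
  have h := Complex.tsum_exp_neg_quadratic ha (-z * N * r)
  have h1 : ∑' m : ℤ, cexp (-Real.pi * z * ((m : ℂ) * N + r) ^ 2) =
      cexp (-Real.pi * z * r ^ 2) *
      ∑' m : ℤ, cexp (-Real.pi * (z * N ^ 2) * m ^ 2 + 2 * Real.pi * (-z * N * r) * m) := by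
    rw [← tsum_mul_left]
    congr 1; ext m
    rw [← Complex.exp_add]
    congr 1; ring
  rw [h1, h, one_div (2 : ℂ)]
  rw [← mul_assoc, mul_comm (cexp _), mul_assoc]
  congr 1
  rw [← tsum_mul_left]
  congr 1; ext m
  rw [← Complex.exp_add]
  congr 1
  push_cast
  field_simp
  ring_nf
  simp only [I_sq]
  ring

/-- Splitting a sum over the integers by residue classes. -/
lemma tsum_by_class {f : ℤ → ℂ} (hf : Summable f) (N : ℕ) [NeZero N] :
    ∑' m : ℤ, f m = ∑ r : Fin N, ∑' k : ℤ, f (k * N + (r : ℕ)) := by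
  have e := (Int.divModEquiv N)
  have h1 : ∑' m : ℤ, f m = ∑' p : ℤ × Fin N, f ((Int.divModEquiv N).symm p) :=
    ((Int.divModEquiv N).symm.tsum_eq f).symm
  have hs : Summable (fun p : ℤ × Fin N => f ((Int.divModEquiv N).symm p)) :=
    (Int.divModEquiv N).symm.summable_iff.2 hf
  rw [h1]
  have h2 : ∑' p : ℤ × Fin N, f ((Int.divModEquiv N).symm p)
      = ∑' q : Fin N × ℤ, f ((Int.divModEquiv N).symm q.swap) :=
    ((Equiv.prodComm (Fin N) ℤ).tsum_eq _).symm
  have hs2 : Summable (fun q : Fin N × ℤ => f ((Int.divModEquiv N).symm q.swap)) :=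
    (Equiv.prodComm (Fin N) ℤ).summable_iff.2 hs
  rw [h2, hs2.tsum_prod, tsum_fintype]
  simp

end Pool.Agent.MP_291b24_nt
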