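import Mathlib
import Pool.Agent.Lib.MP_291b24_nt.Theta

set_option autoImplicit false

open Complex Filter Topology

namespace Pool.Agent.MP_291b24_nt

lemma ofReal_mul_cpow' {r : ℝ} (hr : 0 < r) {x : ℂ} (hx : x ≠ 0) (s : ℂ) :
    ((r : ℂ) * x) ^ s = (r : ℂ) ^ s * x ^ s := by
  have hr' : (r : ℂ) ≠ 0 := by exact_mod_cast hr.ne'
  rw [cpow_def_of_ne_zero (mul_ne_zero hr' hx), cpow_def_of_ne_zero hr', cpow_def_of_ne_zero hx,
    ← Complex.exp_add, log_ofReal_mul hr hx, ofReal_log hr.le]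
  congr 1; ring

lemma exp_sq_class (n : ℕ) (hn : 0 < n) (k : ℤ) (r : ℕ) :
    cexp (2 * Real.pi * I * (((k : ℂ) * n + r) ^ 2 / n)) = cexp (2 * Real.pi * I * ((r : ℂ) ^ 2 / n)) := by
  have hn' : (n : ℂ) ≠ 0 := by exact_mod_cast hn.ne'
  rw [Complex.exp_eq_exp_iff_exists_int]
  refine ⟨k ^ 2 * n + 2 * k * r, ?_⟩
  push_cast
  field_simp
  ring

lemma exp_half_even (n : ℕ) (k : ℤ) :
    cexp (-Real.pi * I * n / 2 * ((k : ℂ) * 2 + 0) ^ 2) = 1 := by
  rw [Complex.exp_eq_one_iff]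
  refine ⟨-(n * k ^ 2), ?_⟩
  push_cast; ring

lemma exp_half_odd (n : ℕ) (k : ℤ) :
    cexp (-Real.pi * I * n / 2 * ((k : ℂ) * 2 + 1) ^ 2) = (-I) ^ n := by
  have h1 : (-I) ^ n = cexp (-Real.pi * I * n / 2) := by
    have : (-I : ℂ) = cexp (-Real.pi / 2 * I) := by
      rw [Complex.exp_mul_I]
      have h1 : (-Real.pi / 2 : ℂ) = ((-(Real.pi / 2) : ℝ) : ℂ) := by push_cast; ring
      rw [h1, ← ofReal_cos, ← ofReal_sin, Real.cos_neg, Real.sin_neg, Real.cos_pi_div_two,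
        Real.sin_pi_div_two]
      push_cast; ring
    rw [this, ← Complex.exp_nat_mul]
    congr 1; ring
  obtain ⟨j, hj⟩ : ∃ j : ℤ, k ^ 2 + k = 2 * j := by
    obtain ⟨j, hj⟩ := Int.even_mul_succ_self k
    exact ⟨j, by linarith [hj, mul_comm k (k + 1), (by ring : k * (k + 1) = k ^ 2 + k)]⟩
  have hj' : (k : ℂ) ^ 2 + k = 2 * j := by exact_mod_cast congrArg (Int.cast : ℤ → ℂ) hj
  rw [h1, Complex.exp_eq_exp_iff_exists_int]
  refine ⟨-(2 * n * j) , ?_⟩
  push_cast
  linear_combination (-2 * Real.pi * I * n) * hj'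

theorem quadratic_gauss_aux (n : ℕ) [NeZero n] :
    ∑ r : Fin n, cexp (2 * Real.pi * I * (((r : ℕ) : ℂ) ^ 2 / n)) =
      (Real.sqrt n : ℂ) / (1 - I) * (1 + (-I) ^ n) := by
  have hn : 0 < n := Nat.pos_of_ne_zero (NeZero.ne n)
  have hn' : (n : ℂ) ≠ 0 := by exact_mod_cast hn.ne'
  have hnR : (0 : ℝ) < n := by exact_mod_cast hn
  set l : Filter ℝ := 𝓝[>] 0 with hl
  -- auxiliary functions of `y`
  let u : ℝ → ℂ := fun y => 1 + I * n * y / 2
  let a : ℝ → ℂ := fun y => y - 2 * I / n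
  let z : ℝ → ℂ := fun y => n ^ 2 * y / (4 * u y)
  let T : ℝ → ℂ → ℝ → ℂ := fun _ w c => ∑' m : ℤ, cexp (-Real.pi * w * m ^ 2
          + 2 * Real.pi * I * (c : ℂ) * m)
  have hu : ∀ y, u y ≠ 0 := by
    intro y h
    have := congrArg Complex.re h
    simp [u] at this
  have huI : ∀ y : ℝ, (u y)⁻¹.re = 1 / normSq (u y) := by
    intro y; rw [inv_re]; simp [u]
  have hzre : ∀ y : ℝ, 0 < y → 0 < (z y).re := by
    intro y hy
    have : z y = ((n ^ 2 * y / 4 : ℝ) : ℂ) * (u y)⁻¹ := by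
      simp only [z]; push_cast; field_simp
    rw [this, re_ofReal_mul, huI]
    have : 0 < normSq (u y) := normSq_pos.2 (hu y)
    positivity
  have hz4 : ∀ y : ℝ, 0 < y → 1 / (z y * (2 : ℕ) ^ 2) = ((1 / (n ^ 2 * y) : ℝ) : ℂ) + I / (2 * n) := by
    intro y hy
    have hy' : (y : ℂ) ≠ 0 := by exact_mod_cast hy.ne'
    have := hu y
    simp only [z]
    push_cast
    field_simp
    simp only [u]
    ring
  have key : ∀ y : ℝ, 0 < y →
      ∑ r : Fin n, cexp (2 * Real.pi * I * (((r : ℕ) : ℂ) ^ 2 / n)) *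
        (∑' m : ℤ, cexp (-Real.pi * (1 / (y * n ^ 2)) * m ^ 2
          + 2 * Real.pi * I * ((((r : ℕ) : ℤ) / n : ℝ) : ℂ) * m)) =
      1 / ((a y) ^ (2⁻¹ : ℂ) * ((u y)⁻¹) ^ (2⁻¹ : ℂ)) *
        ((∑' m : ℤ, cexp (-Real.pi * (1 / (z y * (2 : ℕ) ^ 2)) * m ^ 2
          + 2 * Real.pi * I * (((0 : ℤ) / (2 : ℕ) : ℝ) : ℂ) * m)) +
        (-I) ^ n * (∑' m : ℤ, cexp (-Real.pi * (1 / (z y * (2 : ℕ) ^ 2)) * m ^ 2
          + 2 * Real.pi * I * (((1 : ℤ) / (2 : ℕ) : ℝ) : ℂ) * m))) := by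
    intro y hy
    have hy' : (y : ℂ) ≠ 0 := by exact_mod_cast hy.ne'
    have hyre : 0 < ((y : ℝ) : ℂ).re := by simpa using hy
    have hare : 0 < (a y).re := by
      simp only [a]
      have : (2 * I / n : ℂ) = ((2 / n : ℝ) : ℂ) * I := by push_cast; ring
      rw [this, sub_re, re_ofReal_mul]
      simpa using hy
    have ha0 : a y ≠ 0 := by rintro h; rw [h] at hare; simp at hare
    have hz0 : z y ≠ 0 := by rintro h; have := hzre y hy; rw [h] at this; simp at this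
    -- left side
    have hL : ∑' m : ℤ, cexp (-Real.pi * a y * (m : ℂ) ^ 2) =
        ∑ r : Fin n, cexp (2 * Real.pi * I * (((r : ℕ) : ℂ) ^ 2 / n)) *
          (1 / ((y : ℂ) * n ^ 2) ^ (2⁻¹ : ℂ) *
          (∑' m : ℤ, cexp (-Real.pi * (1 / (y * n ^ 2)) * m ^ 2
          + 2 * Real.pi * I * ((((r : ℕ) : ℤ) / n : ℝ) : ℂ) * m))) := by
      have hs : Summable (fun m : ℤ => cexp (-Real.pi * a y * (m : ℂ) ^ 2)) := by
        have := summable_gauss_char hare 0
        simpa using this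
      rw [tsum_by_class hs n]
      refine Finset.sum_congr rfl fun r _ => ?_
      rw [← theta_class hyre hn, ← tsum_mul_left]
      congr 1; ext k
      rw [← exp_sq_class n hn k r, ← Complex.exp_add]
      congr 1
      simp only [a]
      push_cast
      ring
    have hR : ∑' m : ℤ, cexp (-Real.pi / a y * (m : ℂ) ^ 2) =
        1 / (z y * (2 : ℕ) ^ 2) ^ (2⁻¹ : ℂ) *
        ((∑' m : ℤ, cexp (-Real.pi * (1 / (z y * (2 : ℕ) ^ 2)) * m ^ 2
          + 2 * Real.pi * I * (((0 : ℤ) / (2 : ℕ) : ℝ) : ℂ) * m)) +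
        (-I) ^ n * (∑' m : ℤ, cexp (-Real.pi * (1 / (z y * (2 : ℕ) ^ 2)) * m ^ 2
          + 2 * Real.pi * I * (((1 : ℤ) / (2 : ℕ) : ℝ) : ℂ) * m))) := by
      have hinv : 1 / a y = I * n / 2 + z y := by
        have h1 := hu y
        have h2 : a y = -(2 * I / n) * u y := by
          simp only [a, u]
          field_simp
          ring_nf
          simp only [I_sq]; ring
        have h3 : (I * n / 2 + z y) * a y = 1 := by
          calc (I * n / 2 + z y) * a y = -I ^ 2 * u y - I * n * y / 2 := by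
                rw [h2]; simp only [z]; field_simp; ring
            _ = 1 := by rw [I_sq]; simp only [u]; ring
        rw [one_div]
        exact inv_eq_of_mul_eq_one_left h3
      have hainv : 0 < (1 / a y).re := by
        rw [one_div, inv_re]
        have : 0 < normSq (a y) := normSq_pos.2 ha0
        positivity
      have hs : Summable (fun m : ℤ => cexp (-Real.pi / a y * (m : ℂ) ^ 2)) := by
        have := summable_gauss_char hainv 0
        refine this.congr fun m => ?_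
        congr 1; ring
      have hcomm : ∀ c A B D : ℂ, c * (A + D * B) = c * A + D * (c * B) := by
        intro c A B D; ring
      have f0 : (((0 : Fin 2) : ℕ) : ℤ) = 0 := rfl
      have f1 : (((1 : Fin 2) : ℕ) : ℤ) = 1 := rfl
      rw [tsum_by_class hs 2, Fin.sum_univ_two, hcomm, ← theta_class (hzre y hy) two_pos 0,
        ← theta_class (hzre y hy) two_pos 1, ← tsum_mul_left, f0, f1]
      congr 1
      · congr 1; ext k
        rw [← one_mul (cexp (-Real.pi * z y * _)), ← exp_half_even n k, ← Complex.exp_add]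
        congr 1
        have : -Real.pi / a y = -Real.pi * (I * n / 2 + z y) := by rw [← hinv]; ring
        rw [this]
        push_cast
        ring
      · congr 1; ext k
        rw [← exp_half_odd n k, ← Complex.exp_add]
        congr 1
        have : -Real.pi / a y = -Real.pi * (I * n / 2 + z y) := by rw [← hinv]; ring
        rw [this]
        push_cast
        ring
    have hmain := Complex.tsum_exp_neg_mul_int_sq hare
    rw [hL, hR, one_div (2 : ℂ)] at hmain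
    have hpos : (0 : ℝ) < y * n ^ 2 := by positivity
    have hz4' : z y * (2 : ℕ) ^ 2 = ((y * n ^ 2 : ℝ) : ℂ) * (u y)⁻¹ := by
      simp only [z]; push_cast
      have := hu y
      field_simp
      norm_num
    rw [hz4', ofReal_mul_cpow' hpos (inv_ne_zero (hu y))] at hmain
    have hc0 : (((y * n ^ 2 : ℝ) : ℂ)) ^ (2⁻¹ : ℂ) ≠ 0 := by
      rw [Ne, cpow_eq_zero_iff]
      push Not
      intro h
      exact absurd h (by exact_mod_cast hpos.ne')
    have hcast : ((y : ℂ) * n ^ 2) = ((y * n ^ 2 : ℝ) : ℂ) := by push_cast; ring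
    rw [hcast] at hmain ⊢
    rw [hz4']
    have h1 : ∀ r : Fin n, cexp (2 * Real.pi * I * (((r : ℕ) : ℂ) ^ 2 / n)) *
        (∑' m : ℤ, cexp (-Real.pi * (1 / ((y * n ^ 2 : ℝ) : ℂ)) * m ^ 2
          + 2 * Real.pi * I * ((((r : ℕ) : ℤ) / n : ℝ) : ℂ) * m)) =
        (((y * n ^ 2 : ℝ) : ℂ)) ^ (2⁻¹ : ℂ) * (cexp (2 * Real.pi * I * (((r : ℕ) : ℂ) ^ 2 / n)) *
          (1 / (((y * n ^ 2 : ℝ) : ℂ)) ^ (2⁻¹ : ℂ) *
        (∑' m : ℤ, cexp (-Real.pi * (1 / ((y * n ^ 2 : ℝ) : ℂ)) * m ^ 2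
          + 2 * Real.pi * I * ((((r : ℕ) : ℤ) / n : ℝ) : ℂ) * m)))) := by
      intro r
      field_simp
    rw [Finset.sum_congr rfl fun r _ => h1 r, ← Finset.mul_sum, hmain]
    field_simp
  -- limits
  have hlim1 : Tendsto (fun y : ℝ => ∑ r : Fin n, cexp (2 * Real.pi * I * (((r : ℕ) : ℂ) ^ 2 / n)) *
        (∑' m : ℤ, cexp (-Real.pi * (1 / (y * n ^ 2)) * m ^ 2
          + 2 * Real.pi * I * ((((r : ℕ) : ℤ) / n : ℝ) : ℂ) * m))) l
      (𝓝 (∑ r : Fin n, cexp (2 * Real.pi * I * (((r : ℕ) : ℂ) ^ 2 / n)) * 1)) := by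
    refine tendsto_finsetSum _ fun r _ => Tendsto.const_mul _ ?_
    refine tendsto_gauss_char (w := fun y : ℝ => 1 / ((y : ℂ) * n ^ 2)) ?_ _
    have : (fun y : ℝ => (1 / ((y : ℂ) * n ^ 2)).re) = fun y : ℝ => (1 / n ^ 2 : ℝ) * y⁻¹ := by
      ext y
      have : (1 / ((y : ℂ) * n ^ 2)) = ((1 / n ^ 2 * y⁻¹ : ℝ) : ℂ) := by
        push_cast
        rw [one_div, mul_inv, one_div, mul_comm]
      rw [this, ofReal_re]
    rw [this]
    exact tendsto_inv_nhdsGT_zero.const_mul_atTop (by positivity)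
  have hw : Tendsto (fun y : ℝ => (1 / (z y * (2 : ℕ) ^ 2)).re) l atTop := by
    have h1 : Tendsto (fun y : ℝ => (1 / n ^ 2 : ℝ) * y⁻¹) l atTop :=
      tendsto_inv_nhdsGT_zero.const_mul_atTop (by positivity)
    refine h1.congr' ?_
    filter_upwards [self_mem_nhdsWithin] with y hy
    rw [hz4 y hy, add_re, ofReal_re]
    have : (I / (2 * n) : ℂ) = ((1 / (2 * n) : ℝ) : ℂ) * I := by push_cast; ring
    rw [this, re_ofReal_mul]
    simp only [I_re, mul_zero, add_zero]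
    rw [one_div, one_div, mul_inv]
  have hlu : Tendsto (fun y : ℝ => (u y)⁻¹ ^ (2⁻¹ : ℂ)) l (𝓝 1) := by
    have hc : ContinuousAt (fun y : ℝ => (u y)⁻¹ ^ (2⁻¹ : ℂ)) 0 := by
      have h1 : ContinuousAt (fun y : ℝ => (u y)⁻¹) 0 := by
        refine ContinuousAt.inv₀ ?_ (hu 0)
        simp only [u]
        fun_prop
      refine h1.cpow continuousAt_const (Or.inl ?_)
      simp [u]
    have := hc.tendsto
    simp only [u, ofReal_zero, mul_zero, zero_div, add_zero, inv_one, one_cpow] at this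
    exact this.mono_left nhdsWithin_le_nhds
  have hla : Tendsto (fun y : ℝ => (a y) ^ (2⁻¹ : ℂ)) l (𝓝 ((-(2 * I / n)) ^ (2⁻¹ : ℂ))) := by
    have hc : ContinuousAt (fun y : ℝ => (a y) ^ (2⁻¹ : ℂ)) 0 := by
      have h1 : ContinuousAt (fun y : ℝ => (a y)) 0 := by
        simp only [a]
        fun_prop
      refine h1.cpow continuousAt_const (Or.inr ?_)
      have : a 0 = ((-(2 / n) : ℝ) : ℂ) * I := by simp only [a]; push_cast; ring
      rw [this, im_ofReal_mul]
      simp [hn.ne']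
    have := hc.tendsto
    simp only [a, ofReal_zero, zero_sub] at this
    exact this.mono_left nhdsWithin_le_nhds
  have hsq : (-(2 * I / n) : ℂ) ^ (2⁻¹ : ℂ) = (1 - I) / (Real.sqrt n : ℂ) := by
    have h1 : (-(2 * I / n) : ℂ) = ((1 - I) / (Real.sqrt n : ℂ)) ^ 2 := by
      rw [div_pow, ← ofReal_pow, Real.sq_sqrt hnR.le]
      push_cast
      rw [(by ring_nf; simp only [I_sq]; ring : (1 - I) ^ 2 = -(2 * I)), neg_div]
    rw [h1, sq_cpow_two_inv]
    have h2 : (1 - I) / (Real.sqrt n : ℂ) = ((1 / Real.sqrt n : ℝ) : ℂ) * (1 - I) := by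
      push_cast; ring
    rw [h2, re_ofReal_mul]
    have := Real.sqrt_pos.2 hnR
    simp [hn]
  have hlim2 := ((tendsto_const_nhds (x := (1 : ℂ))).div (hla.mul hlu) (by
      rw [mul_one, hsq]
      have := Real.sqrt_pos.2 hnR
      have h3 : (Real.sqrt n : ℂ) ≠ 0 := by exact_mod_cast this.ne'
      refine div_ne_zero ?_ h3
      intro h
      have := congrArg Complex.re h
      simp at this)).mul
    ((tendsto_gauss_char hw ((0 : ℤ) / (2 : ℕ) : ℝ)).add
    ((tendsto_gauss_char hw ((1 : ℤ) / (2 : ℕ) : ℝ)).const_mul ((-I) ^ n)))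
  have huniq := tendsto_nhds_unique (hlim1.congr' (by
    filter_upwards [self_mem_nhdsWithin] with y hy
    exact key y hy)) hlim2
  rw [hsq] at huniq
  simp only [mul_one] at huniq
  rw [huniq]
  rw [one_div, inv_div]

end Pool.Agent.MP_291b24_nt
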