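import Mathlib
import Pool.Agent.Lib.MP_291b24_nt.Gauss1
import Pool.Agent.Lib.MP_291b24_nt.Defs

set_option autoImplicit false

open Complex Filter Topology ZMod

namespace Pool.Agent.MP_291b24_nt

lemma chi_intCast (n : ℕ) [NeZero n] (k : ℤ) : chi n (k : ZMod n) = ((jacobiSym k n : ℤ) : ℂ) := by
  change (((jacobiSym (((k : ZMod n).val : ℕ) : ℤ) n : ℤ)) : ℂ) = _
  rw [ZMod.val_intCast, ← jacobiSym.mod_left]

/-- The sign `ε_n`. -/
noncomputable def eps (n : ℕ) : ℂ := if n % 4 = 1 then 1 else I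

lemma quadratic_gauss (n : ℕ) [NeZero n] (hn : Odd n) :
    ∑ r : Fin n, cexp (2 * Real.pi * I * (((r : ℕ) : ℂ) ^ 2 / n)) = eps n * (Real.sqrt n : ℂ) := by
  rw [quadratic_gauss_aux]
  have h1 : (1 - I : ℂ) ≠ 0 := by
    intro h
    have := congrArg Complex.re h
    simp at this
  have h4 : n % 4 = 1 ∨ n % 4 = 3 := by
    obtain ⟨k, hk⟩ := hn
    omega
  have hpow : (-I : ℂ) ^ n = (-I) ^ (n % 4) := by
    conv_lhs => rw [← Nat.div_add_mod n 4, pow_add, pow_mul]
    have : (-I : ℂ) ^ 4 = 1 := by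
      rw [neg_pow, I_pow_four]; norm_num
    rw [this, one_pow, one_mul]
  rcases h4 with h | h
  · rw [hpow, h, eps, if_pos h, pow_one]
    field_simp
    ring
  · rw [hpow, h, eps, if_neg (by omega)]
    rw [div_mul_eq_mul_div, div_eq_iff h1]
    have : (-I : ℂ) ^ 3 = I := by
      rw [neg_pow, I_pow_three]; norm_num
    rw [this]
    linear_combination (Real.sqrt n : ℂ) * I_sq

lemma sum_fin_eq_sum_zmod (n : ℕ) [NeZero n] (f : ZMod n → ℂ) :
    ∑ r : Fin n, f ((r : ℕ) : ZMod n) = ∑ a : ZMod n, f a := by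
  refine Finset.sum_bij' (fun r _ => ((r : ℕ) : ZMod n)) (fun a _ => ⟨a.val, ZMod.val_lt a⟩)
    (by simp) (by simp) ?_ ?_ ?_
  · intro r _
    ext
    simp [ZMod.val_natCast, Nat.mod_eq_of_lt r.isLt]
  · intro a _
    simp
  · intro a _
    rfl

lemma quadratic_gauss_zmod (n : ℕ) [NeZero n] (hn : Odd n) :
    ∑ a : ZMod n, (stdAddChar (a ^ 2) : ℂ) = eps n * (Real.sqrt n : ℂ) := by
  rw [← quadratic_gauss n hn, ← sum_fin_eq_sum_zmod]
  refine Finset.sum_congr rfl fun r _ => ?_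
  have : (((r : ℕ) : ZMod n)) ^ 2 = (((((r : ℕ) : ℤ) ^ 2 : ℤ)) : ZMod n) := by push_cast; ring
  rw [this, stdAddChar_coe]
  push_cast
  congr 1; ring

lemma chi_prime (p : ℕ) [Fact p.Prime] (a : ZMod p) :
    chi p a = ((quadraticChar (ZMod p) a : ℤ) : ℂ) := by
  obtain ⟨k, rfl⟩ := ZMod.intCast_surjective a
  rw [chi_intCast, ← jacobiSym.legendreSym.to_jacobiSym]
  rfl

lemma gaussSum_prime (p : ℕ) [Fact p.Prime] (hp : p ≠ 2) :
    gaussSum (chi p) stdAddChar = eps p * (Real.sqrt p : ℂ) := by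
  have hodd : Odd p := (Fact.out : p.Prime).odd_of_ne_two hp
  have hchar : ringChar (ZMod p) ≠ 2 := by rwa [ZMod.ringChar_zmod_n]
  rw [← quadratic_gauss_zmod p hodd]
  have h1 : ∑ a : ZMod p, (stdAddChar (a ^ 2) : ℂ)
      = ∑ b : ZMod p, ∑ a ∈ Finset.univ.filter (fun a : ZMod p => a ^ 2 = b), (stdAddChar (a ^ 2) : ℂ) :=
    (Finset.sum_fiberwise _ _ _).symm
  rw [h1]
  have h2 : ∀ b : ZMod p, ∑ a ∈ Finset.univ.filter (fun a : ZMod p => a ^ 2 = b),
      (stdAddChar (a ^ 2) : ℂ) = (chi p b + 1) * stdAddChar b := by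
    intro b
    rw [Finset.sum_congr rfl (g := fun _ => (stdAddChar b : ℂ)) (by
      intro a ha; rw [(Finset.mem_filter.1 ha).2])]
    rw [Finset.sum_const, nsmul_eq_mul, chi_prime]
    congr 1
    have := quadraticChar_card_sqrts hchar b
    have h3 : (Finset.univ.filter (fun a : ZMod p => a ^ 2 = b)) = {x : ZMod p | x ^ 2 = b}.toFinset := by
      ext x; simp
    rw [h3]
    exact_mod_cast congrArg (Int.cast : ℤ → ℂ) this
  rw [Finset.sum_congr rfl fun b _ => h2 b]
  have h3 : ∑ b : ZMod p, (stdAddChar b : ℂ) = 0 := by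
    have hne : (stdAddChar : AddChar (ZMod p) ℂ) ≠ 1 := by
      have h := (isPrimitive_stdAddChar p)
      have := h (a := 1) one_ne_zero
      rwa [AddChar.mulShift_one] at this
    exact AddChar.sum_eq_zero_of_ne_one hne
  simp_rw [add_mul, one_mul]
  rw [Finset.sum_add_distrib, h3, add_zero]
  rfl

/-- Multiplicativity of Gauss sums of Jacobi characters. -/
lemma gaussSum_mul (m n : ℕ) [NeZero m] [NeZero n] [NeZero (m * n)] (hmn : m.Coprime n) :
    gaussSum (chi (m * n)) stdAddChar =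
      ((jacobiSym n m : ℤ) : ℂ) * ((jacobiSym m n : ℤ) : ℂ) *
        (gaussSum (chi m) stdAddChar * gaussSum (chi n) stdAddChar) := by
  let Φ : ZMod m × ZMod n → ZMod (m * n) := fun x =>
    (((n : ℤ) * ((x.1.val : ℕ) : ℤ) + (m : ℤ) * ((x.2.val : ℕ) : ℤ) : ℤ) : ZMod (m * n))
  have hinj : Function.Injective Φ := by
    rintro ⟨x1, x2⟩ ⟨y1, y2⟩ h
    simp only [Φ] at h
    rw [ZMod.intCast_eq_intCast_iff_dvd_sub] at h
    have hm : (m : ℤ) ∣ (n : ℤ) * ((y1.val : ℤ) - x1.val) := by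
      have h1 : (m : ℤ) ∣ ((m * n : ℕ) : ℤ) := by push_cast; exact dvd_mul_right _ _
      have h2 := h1.trans h
      have h3 : (m : ℤ) ∣ (m : ℤ) * ((y2.val : ℤ) - x2.val) := dvd_mul_right _ _
      have h4 := dvd_sub h2 h3
      have h5 : (n : ℤ) * ((y1.val : ℕ) : ℤ) + (m : ℤ) * ((y2.val : ℕ) : ℤ) -
          ((n : ℤ) * ((x1.val : ℕ) : ℤ) + (m : ℤ) * ((x2.val : ℕ) : ℤ)) -
          (m : ℤ) * ((y2.val : ℤ) - x2.val) = (n : ℤ) * ((y1.val : ℤ) - x1.val) := by ring
      rwa [h5] at h4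
    have hn : (n : ℤ) ∣ (m : ℤ) * ((y2.val : ℤ) - x2.val) := by
      have h1 : (n : ℤ) ∣ ((m * n : ℕ) : ℤ) := by push_cast; exact dvd_mul_left _ _
      have h2 := h1.trans h
      have h3 : (n : ℤ) ∣ (n : ℤ) * ((y1.val : ℤ) - x1.val) := dvd_mul_right _ _
      have h4 := dvd_sub h2 h3
      have h5 : (n : ℤ) * ((y1.val : ℕ) : ℤ) + (m : ℤ) * ((y2.val : ℕ) : ℤ) -
          ((n : ℤ) * ((x1.val : ℕ) : ℤ) + (m : ℤ) * ((x2.val : ℕ) : ℤ)) -
          (n : ℤ) * ((y1.val : ℤ) - x1.val) = (m : ℤ) * ((y2.val : ℤ) - x2.val) := by ring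
      rwa [h5] at h4
    have hc : IsCoprime (m : ℤ) (n : ℤ) := Nat.isCoprime_iff_coprime.2 hmn
    have hm' := hc.dvd_of_dvd_mul_left hm
    have hn' := hc.symm.dvd_of_dvd_mul_left hn
    have e1 : x1 = y1 := by
      have := (ZMod.intCast_eq_intCast_iff_dvd_sub ((x1.val : ℕ) : ℤ) ((y1.val : ℕ) : ℤ) m).2 hm'
      simpa using this
    have e2 : x2 = y2 := by
      have := (ZMod.intCast_eq_intCast_iff_dvd_sub ((x2.val : ℕ) : ℤ) ((y2.val : ℕ) : ℤ) n).2 hn'
      simpa using this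
    rw [e1, e2]
  have hbij : Function.Bijective Φ := by
    rw [Fintype.bijective_iff_injective_and_card]
    exact ⟨hinj, by simp [ZMod.card]⟩
  rw [gaussSum, gaussSum, gaussSum, Finset.sum_mul_sum, ← Finset.sum_product',
    Finset.univ_product_univ, Finset.mul_sum,
    ← Function.Bijective.sum_comp hbij (fun a => chi (m * n) a * stdAddChar a)]
  refine Finset.sum_congr rfl fun x _ => ?_
  obtain ⟨x1, x2⟩ := x
  have hchi : chi (m * n) (Φ (x1, x2)) =
      ((jacobiSym n m : ℤ) : ℂ) * ((jacobiSym m n : ℤ) : ℂ) * (chi m x1 * chi n x2) := by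
    simp only [Φ]
    rw [chi_intCast, jacobiSym.mul_right]
    have h1 : jacobiSym ((n : ℤ) * ((x1.val : ℕ) : ℤ) + (m : ℤ) * ((x2.val : ℕ) : ℤ)) m =
        jacobiSym n m * jacobiSym ((x1.val : ℕ) : ℤ) m := by
      rw [← jacobiSym.mul_left]
      apply jacobiSym.mod_left'
      simp
    have h2 : jacobiSym ((n : ℤ) * ((x1.val : ℕ) : ℤ) + (m : ℤ) * ((x2.val : ℕ) : ℤ)) n =
        jacobiSym m n * jacobiSym ((x2.val : ℕ) : ℤ) n := by
      rw [← jacobiSym.mul_left]
      apply jacobiSym.mod_left'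
      simp
    have e1 : chi m x1 = ((jacobiSym ((x1.val : ℕ) : ℤ) m : ℤ) : ℂ) := rfl
    have e2 : chi n x2 = ((jacobiSym ((x2.val : ℕ) : ℤ) n : ℤ) : ℂ) := rfl
    rw [h1, h2, e1, e2]
    push_cast
    ring
  have hadd : (stdAddChar (Φ (x1, x2)) : ℂ) = stdAddChar x1 * stdAddChar x2 := by
    have e1 : x1 = (((x1.val : ℕ) : ℤ) : ZMod m) := by simp
    have e2 : x2 = (((x2.val : ℕ) : ℤ) : ZMod n) := by simp
    have hm0 : (m : ℂ) ≠ 0 := by exact_mod_cast NeZero.ne m
    have hn0 : (n : ℂ) ≠ 0 := by exact_mod_cast NeZero.ne n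
    conv_rhs => rw [e1, e2, stdAddChar_coe, stdAddChar_coe]
    simp only [Φ]
    rw [stdAddChar_coe, ← Complex.exp_add]
    congr 1
    push_cast
    field_simp
  rw [hchi, hadd]
  simp only
  ring

lemma eps_mul (m n : ℕ) (hm : Odd m) (hn : Odd n) (hmn : m.Coprime n) :
    ((jacobiSym n m : ℤ) : ℂ) * ((jacobiSym m n : ℤ) : ℂ) * (eps m * eps n) = eps (m * n) := by
  have hm4 : m % 4 = 1 ∨ m % 4 = 3 := by obtain ⟨k, hk⟩ := hm; omega
  have hn4 : n % 4 = 1 ∨ n % 4 = 3 := by obtain ⟨k, hk⟩ := hn; omega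
  have hsq : jacobiSym (m : ℤ) n ^ 2 = 1 := jacobiSym.sq_one (by simpa [Int.gcd_natCast_natCast] using hmn)
  have hsq' : ((jacobiSym (m : ℤ) n : ℤ) : ℂ) ^ 2 = 1 := by exact_mod_cast congrArg (Int.cast : ℤ → ℂ) hsq
  rcases hm4 with h1 | h1
  · have hr : jacobiSym (m : ℤ) n = jacobiSym n m := jacobiSym.quadratic_reciprocity_one_mod_four h1 hn
    rw [← hr, ← sq, hsq', one_mul]
    have h3 : (m * n) % 4 = n % 4 := by rw [Nat.mul_mod, h1]; omega
    simp only [eps, h1, h3, if_true, one_mul]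
  · rcases hn4 with h2 | h2
    · have hr : jacobiSym (m : ℤ) n = jacobiSym n m := jacobiSym.quadratic_reciprocity_one_mod_four' hm h2
      rw [← hr, ← sq, hsq', one_mul]
      have h3 : (m * n) % 4 = m % 4 := by rw [Nat.mul_mod, h2]; omega
      simp only [eps, h2, h3, if_true, mul_one]
    · have hr : jacobiSym (m : ℤ) n = -jacobiSym n m := jacobiSym.quadratic_reciprocity_three_mod_four h1 h2
      have hr' : ((jacobiSym (n : ℤ) m : ℤ) : ℂ) = -((jacobiSym (m : ℤ) n : ℤ) : ℂ) := by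
        rw [hr]; push_cast; ring
      have h3 : (m * n) % 4 = 1 := by rw [Nat.mul_mod, h1, h2]
      have e1 : eps m = I := by simp [eps, h1]
      have e2 : eps n = I := by simp [eps, h2]
      have e3 : eps (m * n) = 1 := by simp [eps, h3]
      rw [hr', e1, e2, e3]
      linear_combination (-((jacobiSym (m : ℤ) n : ℤ) : ℂ) ^ 2) * I_sq + hsq'

theorem gaussSum_chi (n : ℕ) (hodd : Odd n) (hsq : Squarefree n) :
    ∀ [NeZero n], gaussSum (chi n) stdAddChar = eps n * (Real.sqrt n : ℂ) := by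
  induction n using Nat.strong_induction_on with
  | _ n ih =>
    intro hne
    by_cases h1 : n = 1
    · subst h1
      have : gaussSum (chi 1) stdAddChar = 1 := by
        simp [gaussSum, -Finset.univ_unique, ← Finset.singleton_eq_univ (1 : ZMod 1),
          (show stdAddChar (1 : ZMod 1) = 1 from AddChar.map_zero_eq_one _)]
      have e : eps 1 = 1 := by simp [eps]
      rw [e]
      convert this using 1
      simp
    · obtain ⟨p, hp, hpn⟩ := Nat.exists_prime_and_dvd h1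
      obtain ⟨m, rfl⟩ := hpn
      have hm0 : m ≠ 0 := by
        rintro rfl
        exact hne.out (by simp)
      have : NeZero m := ⟨hm0⟩
      have : Fact p.Prime := ⟨hp⟩
      have : NeZero p := ⟨hp.ne_zero⟩
      have hcop : p.Coprime m := by
        have := Nat.squarefree_mul_iff.1 hsq
        exact this.1
      have hpodd : Odd p := (Nat.odd_mul.1 hodd).1
      have hmodd : Odd m := (Nat.odd_mul.1 hodd).2
      have hp2 : p ≠ 2 := by rintro rfl; exact absurd hpodd (by decide)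
      have hmlt : m < p * m := by
        have := hp.two_le
        have : 0 < m := Nat.pos_of_ne_zero hm0
        nlinarith
      have hmsq : Squarefree m := (Nat.squarefree_mul_iff.1 hsq).2.2
      have ihm := ih m hmlt hmodd hmsq
      have := gaussSum_mul p m hcop
      rw [this, gaussSum_prime p hp2, ihm, ← eps_mul p m hpodd hmodd hcop]
      rw [Nat.cast_mul, Real.sqrt_mul (by positivity)]
      push_cast
      ring

end Pool.Agent.MP_291b24_nt
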