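import Mathlib
import Pool.Agent.Lib.MP_291b24_nt.Gauss2

set_option autoImplicit false

open Complex Filter Topology ZMod DirichletCharacter

namespace Pool.Agent.MP_291b24_nt

lemma chi_isQuadratic (n : ℕ) [NeZero n] : (chi n).IsQuadratic := by
  intro a
  obtain ⟨k, rfl⟩ := ZMod.intCast_surjective a
  rw [chi_intCast]
  rcases jacobiSym.trichotomy k n with h | h | h <;> simp [h]

lemma chi_inv (n : ℕ) [NeZero n] : (chi n)⁻¹ = chi n := (chi_isQuadratic n).inv

/-- For an odd squarefree modulus the Jacobi character is primitive. -/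
lemma chi_isPrimitive (n : ℕ) [NeZero n] (hodd : Odd n) (hsq : Squarefree n) :
    (chi n).IsPrimitive := by
  rw [isPrimitive_def]
  by_contra hne
  set d := (chi n).conductor with hd
  have hdvd : d ∣ n := (chi n).conductor_dvd_level
  have hft : (chi n).FactorsThrough d := (chi n).factorsThrough_conductor
  obtain ⟨k, hk⟩ := hdvd
  have hk1 : k ≠ 1 := by rintro rfl; exact hne (by omega)
  obtain ⟨p, hp, k', rfl⟩ := Nat.exists_prime_and_dvd hk1
  have : Fact p.Prime := ⟨hp⟩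
  have hn : n = p * (d * k') := by rw [hk]; ring
  have hcop : p.Coprime (d * k') := by
    rw [hn] at hsq
    exact (Nat.squarefree_mul_iff.1 hsq).1
  have hpodd : Odd p := by rw [hn] at hodd; exact (Nat.odd_mul.1 hodd).1
  have hp2 : ringChar (ZMod p) ≠ 2 := by
    rw [ZMod.ringChar_zmod_n]; rintro rfl; exact absurd hpodd (by decide)
  obtain ⟨b, hb⟩ := quadraticChar_exists_neg_one hp2
  have hm0 : d * k' ≠ 0 := by
    intro h; rw [h, mul_zero] at hn; exact NeZero.ne n hn
  have : NeZero (d * k') := ⟨hm0⟩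
  -- an integer that is `b` mod `p` and `1` mod `d * k'`
  obtain ⟨a, ha1, ha2⟩ := Nat.chineseRemainder hcop b.val 1
  have hJ : jacobiSym (a : ℤ) n = -1 := by
    rw [hn, jacobiSym.mul_right]
    have h1 : jacobiSym (a : ℤ) p = -1 := by
      rw [← jacobiSym.legendreSym.to_jacobiSym]
      change quadraticChar (ZMod p) (((a : ℕ) : ℤ) : ZMod p) = -1
      have : (((a : ℕ) : ℤ) : ZMod p) = b := by
        have := (ZMod.natCast_eq_natCast_iff _ _ _).2 ha1
        rw [Int.cast_natCast, this]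
        simp
      rw [this, hb]
    have h2 : jacobiSym (a : ℤ) (d * k') = 1 := by
      rw [← jacobiSym.one_left (d * k')]
      apply jacobiSym.mod_left'
      have := Int.natCast_modEq_iff.2 ha2
      simpa [Int.ModEq] using this
    rw [h1, h2]; norm_num
  have hcopa : IsCoprime (a : ℤ) (n : ℤ) := by
    rw [← apply_ne_zero_iff (chi n) (a : ℤ), chi_intCast, hJ]
    norm_num
  obtain ⟨hdn, χ', hχ'⟩ := hft
  have h1 : chi n ((a : ℤ) : ZMod n) = χ' ((a : ℤ) : ZMod d) := by
    rw [hχ']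
    exact changeLevel_eq_cast_of_dvd' χ' hdn hcopa
  have h2 : ((a : ℤ) : ZMod d) = 1 := by
    have h3 : a ≡ 1 [MOD d] := Nat.ModEq.of_mul_right k' ha2
    have := (ZMod.natCast_eq_natCast_iff _ _ _).2 h3
    rw [Int.cast_natCast, this]; simp
  rw [h2, map_one, chi_intCast, hJ] at h1
  norm_num at h1

lemma chi_even_of (n : ℕ) [NeZero n] (h : n % 4 = 1) : (chi n).Even := by
  have hodd : Odd n := by rw [Nat.odd_iff]; omega
  have h1 : (chi n) (((-1 : ℤ)) : ZMod n) = 1 := by
    rw [chi_intCast, jacobiSym.at_neg_one hodd, ZMod.χ₄_nat_one_mod_four h]; simp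
  simpa [DirichletCharacter.Even] using h1

lemma chi_odd_of (n : ℕ) [NeZero n] (h : n % 4 = 3) : (chi n).Odd := by
  have hodd : Odd n := by rw [Nat.odd_iff]; omega
  have h1 : (chi n) (((-1 : ℤ)) : ZMod n) = -1 := by
    rw [chi_intCast, jacobiSym.at_neg_one hodd, ZMod.χ₄_nat_three_mod_four h]; simp
  simpa [DirichletCharacter.Odd] using h1

lemma rootNumber_chi (n : ℕ) [NeZero n] (hodd : Odd n) (hsq : Squarefree n) :
    rootNumber (chi n) = 1 := by
  have h4 : n % 4 = 1 ∨ n % 4 = 3 := by obtain ⟨k, hk⟩ := hodd; omega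
  have hn : (0 : ℝ) < n := by exact_mod_cast Nat.pos_of_ne_zero (NeZero.ne n)
  have hs : ((n : ℂ)) ^ (1 / 2 : ℂ) = (Real.sqrt n : ℂ) := by
    rw [Real.sqrt_eq_rpow, ofReal_cpow hn.le]
    push_cast; rfl
  have hs0 : (Real.sqrt n : ℂ) ≠ 0 := by
    have := Real.sqrt_pos.2 hn
    exact_mod_cast this.ne'
  rw [rootNumber, gaussSum_chi n hodd hsq, hs]
  rcases h4 with h | h
  · rw [if_pos (chi_even_of n h), eps, if_pos h]
    field_simp
  · rw [if_neg (chi_odd_of n h).not_even, eps, if_neg (by omega)]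
    have : (I : ℂ) ≠ 0 := I_ne_zero
    field_simp

/-- The functional equation, in the form used in the problem. -/
theorem Lchi_func_eq (n : ℕ) (hodd : Odd n) (hsq : Squarefree n) (α : ℂ)
    (h1 : -(1 / 2) < α.re) (h2 : α.re < 1 / 2) :
    Lchi n (1 / 2 + α) =
      (Real.pi : ℂ) ^ α * (if n % 4 = 1 then Ge α else Go α) * (n : ℂ) ^ (-α) * Lchi n (1 / 2 - α) := by
  have hn0 : n ≠ 0 := hsq.ne_zero
  have : NeZero n := ⟨hn0⟩
  have h4 : n % 4 = 1 ∨ n % 4 = 3 := by obtain ⟨k, hk⟩ := hodd; omega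
  have hre1 : 0 < (1 / 2 + α).re := by
    simp only [add_re]; norm_num; linarith
  have hre2 : 0 < (1 / 2 - α).re := by
    simp only [sub_re]; norm_num; linarith
  have hne1 : (1 / 2 + α) ≠ 0 := by rintro h; rw [h] at hre1; simp at hre1
  have hne2 : (1 / 2 - α) ≠ 0 := by rintro h; rw [h] at hre2; simp at hre2
  have e1 : Lchi n (1 / 2 + α) = (chi n).LFunction (1 / 2 + α) := by simp [Lchi, hn0]
  have e2 : Lchi n (1 / 2 - α) = (chi n).LFunction (1 / 2 - α) := by simp [Lchi, hn0]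
  rw [e1, e2, LFunction_eq_completed_div_gammaFactor _ _ (Or.inl hne1),
    LFunction_eq_completed_div_gammaFactor _ _ (Or.inl hne2)]
  have hfe := (chi_isPrimitive n hodd hsq).completedLFunction_one_sub (1 / 2 - α)
  rw [rootNumber_chi n hodd hsq, chi_inv, mul_one] at hfe
  have e3 : (1 - (1 / 2 - α) : ℂ) = 1 / 2 + α := by ring
  have e4 : (1 / 2 - α - 1 / 2 : ℂ) = -α := by ring
  rw [e3, e4] at hfe
  rw [hfe]
  have hpi0 : (Real.pi : ℂ) ≠ 0 := by exact_mod_cast Real.pi_ne_zero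
  rcases h4 with h | h
  · rw [(chi_even_of n h).gammaFactor_def, (chi_even_of n h).gammaFactor_def, if_pos h]
    have g2 : Gammaℝ (1 / 2 - α) ≠ 0 := Gammaℝ_ne_zero_of_re_pos hre2
    have g1 : Gammaℝ (1 / 2 + α) ≠ 0 := Gammaℝ_ne_zero_of_re_pos hre1
    have hG : (Real.pi : ℂ) ^ α * Ge α = Gammaℝ (1 / 2 - α) / Gammaℝ (1 / 2 + α) := by
      rw [Gammaℝ_def, Gammaℝ_def, Ge]
      have a1 : (1 / 2 - α) / 2 = 1 / 4 - α / 2 := by ring
      have a2 : (1 / 2 + α) / 2 = 1 / 4 + α / 2 := by ring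
      rw [a1, a2, mul_div_mul_comm, ← cpow_sub _ _ hpi0]
      congr 2
      ring
    rw [hG]
    revert g1 g2
    generalize Gammaℝ (1 / 2 - α) = A
    generalize Gammaℝ (1 / 2 + α) = B
    generalize DirichletCharacter.completedLFunction (chi n) (1 / 2 - α) = E
    intro g2 g1
    field_simp
  · rw [(chi_odd_of n h).gammaFactor_def, (chi_odd_of n h).gammaFactor_def, if_neg (by omega)]
    have hre1' : 0 < (1 / 2 + α + 1).re := by
      rw [add_re]; simp only [one_re]; linarith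
    have hre2' : 0 < (1 / 2 - α + 1).re := by
      rw [add_re]; simp only [one_re]; linarith
    have g2 : Gammaℝ (1 / 2 - α + 1) ≠ 0 := Gammaℝ_ne_zero_of_re_pos hre2'
    have g1 : Gammaℝ (1 / 2 + α + 1) ≠ 0 := Gammaℝ_ne_zero_of_re_pos hre1'
    have hG : (Real.pi : ℂ) ^ α * Go α = Gammaℝ (1 / 2 - α + 1) / Gammaℝ (1 / 2 + α + 1) := by
      rw [Gammaℝ_def, Gammaℝ_def, Go]
      have a1 : (1 / 2 - α + 1) / 2 = 3 / 4 - α / 2 := by ring
      have a2 : (1 / 2 + α + 1) / 2 = 3 / 4 + α / 2 := by ring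
      rw [a1, a2, mul_div_mul_comm, ← cpow_sub _ _ hpi0]
      congr 2
      ring
    rw [hG]
    revert g1 g2
    generalize Gammaℝ (1 / 2 - α + 1) = A
    generalize Gammaℝ (1 / 2 + α + 1) = B
    generalize DirichletCharacter.completedLFunction (chi n) (1 / 2 - α) = E
    intro g2 g1
    field_simp

end Pool.Agent.MP_291b24_nt
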