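import Mathlib
import Pool.Agent.Lib.MP_291b24_nt.Defs

set_option autoImplicit false

open Complex Filter Topology

namespace Pool.Agent.MP_291b24_nt

/-- `‖Γ(x+iy)‖/Γ(x)` increases with `x`. -/
lemma norm_Gamma_mono {x x' : ℝ} (hx : 0 < x) (hxx' : x ≤ x') (y : ℝ) :
    ‖Gamma (x + y * I)‖ * ‖Gamma (x' : ℂ)‖ ≤ ‖Gamma (x' + y * I)‖ * ‖Gamma (x : ℂ)‖ := by
  have h1 := ((GammaSeq_tendsto_Gamma (x + y * I)).norm).mul ((GammaSeq_tendsto_Gamma (x' : ℂ)).norm)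
  have h2 := ((GammaSeq_tendsto_Gamma (x' + y * I)).norm).mul ((GammaSeq_tendsto_Gamma (x : ℂ)).norm)
  refine le_of_tendsto_of_tendsto h1 h2 ?_
  filter_upwards [eventually_gt_atTop 0] with n hn
  have hn' : (0 : ℝ) < n := by exact_mod_cast hn
  have hcp : ∀ s : ℂ, ‖((n : ℂ)) ^ s‖ = (n : ℝ) ^ s.re := by
    intro s
    exact Complex.norm_natCast_cpow_of_pos hn s
  simp only [GammaSeq, norm_div, norm_mul, hcp, norm_prod]
  simp only [add_re, ofReal_re, mul_re, I_re, mul_zero, ofReal_im, I_im, mul_one, sub_self,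
    add_zero]
  have hA : ∀ (v : ℝ), 0 < v → 0 < ∏ j ∈ Finset.range (n + 1), ‖((v : ℂ) + y * I + j)‖ := by
    intro v hv
    refine Finset.prod_pos fun j _ => norm_pos_iff.2 ?_
    intro h
    have := congrArg Complex.re h
    simp at this
    have hj : (0 : ℝ) ≤ j := Nat.cast_nonneg j
    linarith
  have hB : ∀ (v : ℝ), 0 < v → 0 < ∏ j ∈ Finset.range (n + 1), ‖((v : ℂ) + j)‖ := by
    intro v hv
    refine Finset.prod_pos fun j _ => norm_pos_iff.2 ?_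
    intro h
    have := congrArg Complex.re h
    simp at this
    have hj : (0 : ℝ) ≤ j := Nat.cast_nonneg j
    linarith
  have hx' : 0 < x' := lt_of_lt_of_le hx hxx'
  have key : (∏ j ∈ Finset.range (n + 1), ‖((x' : ℂ) + y * I + j)‖) *
        (∏ j ∈ Finset.range (n + 1), ‖((x : ℂ) + j)‖) ≤
      (∏ j ∈ Finset.range (n + 1), ‖((x : ℂ) + y * I + j)‖) *
        (∏ j ∈ Finset.range (n + 1), ‖((x' : ℂ) + j)‖) := by
    rw [← Finset.prod_mul_distrib, ← Finset.prod_mul_distrib]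
    refine Finset.prod_le_prod (fun j _ => by positivity) fun j _ => ?_
    rw [← norm_mul, ← norm_mul]
    have hj : (0 : ℝ) ≤ j := Nat.cast_nonneg j
    have hsq : ∀ v w : ℝ, ‖((v : ℂ) + y * I + j) * ((w : ℂ) + j)‖ ^ 2
        = ((v + j) ^ 2 + y ^ 2) * (w + j) ^ 2 := by
      intro v w
      rw [norm_mul, mul_pow, ← normSq_eq_norm_sq, ← normSq_eq_norm_sq, normSq_apply, normSq_apply]
      simp
      ring
    refine le_of_sq_le_sq ?_ (norm_nonneg _) |> fun h => h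
    rw [hsq, hsq]
    have h3 : (x + j) ^ 2 ≤ (x' + j) ^ 2 := by
      apply pow_le_pow_left₀ (by positivity)
      linarith
    nlinarith [sq_nonneg y]
  rw [div_mul_div_comm, div_mul_div_comm]
  rw [div_le_div_iff₀ (mul_pos (hA x hx) (hB x' hx')) (mul_pos (hA x' hx') (hB x hx))]
  have hc : 0 ≤ (n : ℝ) ^ x * ‖((n.factorial : ℕ) : ℂ)‖ * ((n : ℝ) ^ x' * ‖((n.factorial : ℕ) : ℂ)‖) := by
    positivity
  calc _ ≤ ((n : ℝ) ^ x * ‖((n.factorial : ℕ) : ℂ)‖ * ((n : ℝ) ^ x' * ‖((n.factorial : ℕ) : ℂ)‖)) *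
        ((∏ j ∈ Finset.range (n + 1), ‖((x : ℂ) + y * I + j)‖) *
        (∏ j ∈ Finset.range (n + 1), ‖((x' : ℂ) + j)‖)) := mul_le_mul_of_nonneg_left key hc
    _ = _ := by ring

/-- Lower bound for `Γ_e(1/2+α)` on the line `α = -σ - it`. -/
lemma norm_Ge_ge {σ : ℝ} (h0 : 0 < σ) (h1 : σ < 1 / 2) (t : ℝ) :
    Real.Gamma (1 / 4 + σ / 2) / Real.Gamma (1 / 4 - σ / 2) ≤ ‖Ge (-σ - t * I)‖ := by
  have hx : (0 : ℝ) < 1 / 4 - σ / 2 := by linarith
  have hx' : (0 : ℝ) < 1 / 4 + σ / 2 := by linarith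
  have hmono := norm_Gamma_mono hx (by linarith : 1 / 4 - σ / 2 ≤ 1 / 4 + σ / 2) (t / 2)
  have e1 : (1 / 4 - (-σ - t * I) / 2 : ℂ) = ((1 / 4 + σ / 2 : ℝ) : ℂ) + ((t / 2 : ℝ) : ℂ) * I := by
    push_cast; ring
  have e2 : (1 / 4 + (-σ - t * I) / 2 : ℂ) =
      (starRingEnd ℂ) (((1 / 4 - σ / 2 : ℝ) : ℂ) + ((t / 2 : ℝ) : ℂ) * I) := by
    rw [map_add, map_mul, conj_ofReal, conj_ofReal, conj_I]
    push_cast; ring
  rw [Ge, e1, e2, norm_div, Gamma_conj, RCLike.norm_conj]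
  have hg1 : ‖Gamma ((1 / 4 + σ / 2 : ℝ) : ℂ)‖ = Real.Gamma (1 / 4 + σ / 2) := by
    rw [Complex.Gamma_ofReal, norm_real, Real.norm_eq_abs, abs_of_pos (Real.Gamma_pos_of_pos hx')]
  have hg2 : ‖Gamma ((1 / 4 - σ / 2 : ℝ) : ℂ)‖ = Real.Gamma (1 / 4 - σ / 2) := by
    rw [Complex.Gamma_ofReal, norm_real, Real.norm_eq_abs, abs_of_pos (Real.Gamma_pos_of_pos hx)]
  rw [hg1, hg2] at hmono
  have hpos : 0 < ‖Gamma (((1 / 4 - σ / 2 : ℝ) : ℂ) + ((t / 2 : ℝ) : ℂ) * I)‖ := by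
    refine norm_pos_iff.2 (Gamma_ne_zero_of_re_pos ?_)
    simpa using hx
  rw [div_le_div_iff₀ (Real.Gamma_pos_of_pos hx) hpos]
  linarith

/-- The ratio `Γ_o/Γ_e` is close to `i` high up. -/
lemma exists_rho {σ : ℝ} (h0 : 0 < σ) (h1 : σ < 1 / 2) {t : ℝ} (ht : 0 < t) :
    ∃ ρ : ℂ, Go (-σ - t * I) = ρ * Ge (-σ - t * I) ∧ ‖ρ - I‖ ≤ 1 / t := by
  set α : ℂ := -σ - t * I with hα
  set w : ℂ := Real.pi * (1 / 4 - α / 2) with hw
  have hwre : w.re = Real.pi * (1 / 4 + σ / 2) := by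
    rw [hw, re_ofReal_mul, hα]; simp; ring_nf
  have hwim : w.im = Real.pi * t / 2 := by
    rw [hw, im_ofReal_mul, hα]; simp; ring_nf
  have hpi := Real.pi_pos
  have ea : (1 / 4 + α / 2).re = 1 / 4 - σ / 2 := by rw [hα]; simp; ring
  have eb : (1 / 4 - α / 2).re = 1 / 4 + σ / 2 := by rw [hα]; simp; ring
  have ec : (3 / 4 + α / 2).re = 3 / 4 - σ / 2 := by rw [hα]; simp; ring
  have ed : (3 / 4 - α / 2).re = 3 / 4 + σ / 2 := by rw [hα]; simp; ring
  have n1 : Gamma (1 / 4 + α / 2) ≠ 0 := Gamma_ne_zero_of_re_pos (by rw [ea]; linarith)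
  have n2 : Gamma (1 / 4 - α / 2) ≠ 0 := Gamma_ne_zero_of_re_pos (by rw [eb]; linarith)
  have n3 : Gamma (3 / 4 + α / 2) ≠ 0 := Gamma_ne_zero_of_re_pos (by rw [ec]; linarith)
  have n4 : Gamma (3 / 4 - α / 2) ≠ 0 := Gamma_ne_zero_of_re_pos (by rw [ed]; linarith)
  have r1 : Gamma (1 / 4 + α / 2) * Gamma (3 / 4 - α / 2) = Real.pi / cos w := by
    have := Gamma_mul_Gamma_one_sub (1 / 4 + α / 2)
    rw [(by ring : (1 - (1 / 4 + α / 2) : ℂ) = 3 / 4 - α / 2)] at this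
    rw [this]
    have e : (Real.pi : ℂ) * (1 / 4 + α / 2) = Real.pi / 2 - w := by rw [hw]; ring
    rw [e, Complex.sin_pi_div_two_sub]
  have r2 : Gamma (1 / 4 - α / 2) * Gamma (3 / 4 + α / 2) = Real.pi / sin w := by
    have := Gamma_mul_Gamma_one_sub (1 / 4 - α / 2)
    rw [(by ring : (1 - (1 / 4 - α / 2) : ℂ) = 3 / 4 + α / 2)] at this
    rw [this]
  have hpi0 : (Real.pi : ℂ) ≠ 0 := by exact_mod_cast hpi.ne'
  have c0 : cos w ≠ 0 := by
    intro h
    rw [h, div_zero] at r1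
    exact (mul_ne_zero n1 n4) r1
  have s0 : sin w ≠ 0 := by
    intro h
    rw [h, div_zero] at r2
    exact (mul_ne_zero n2 n3) r2
  refine ⟨sin w / cos w, ?_, ?_⟩
  · rw [Go, Ge, div_mul_div_comm, div_eq_div_iff n3 (mul_ne_zero c0 n1)]
    have r1' : Gamma (1 / 4 + α / 2) * Gamma (3 / 4 - α / 2) * cos w = Real.pi := by
      rw [r1]; field_simp
    have r2' : Gamma (1 / 4 - α / 2) * Gamma (3 / 4 + α / 2) * sin w = Real.pi := by
      rw [r2]; field_simp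
    linear_combination r1' - r2'
  · have hb : 0 < Real.pi * t / 2 := by positivity
    have e1 : sin w / cos w - I = -I * cexp (w * I) / cos w := by
      rw [Complex.exp_mul_I]
      field_simp
      linear_combination (sin w) * I_sq
    have hnorm1 : ‖cexp (w * I)‖ = Real.exp (-(Real.pi * t / 2)) := by
      rw [Complex.norm_exp]
      congr 1
      simp [hwim]
    have hcos : Real.pi * t / 2 ≤ ‖cos w‖ := by
      have h2 : cos w = (cexp (w * I) + cexp (-w * I)) / 2 := rfl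
      have hnorm2 : ‖cexp (-w * I)‖ = Real.exp (Real.pi * t / 2) := by
        rw [Complex.norm_exp]
        congr 1
        simp [hwim]
      have h3 : Real.exp (Real.pi * t / 2) - Real.exp (-(Real.pi * t / 2)) ≤
          ‖cexp (w * I) + cexp (-w * I)‖ := by
        rw [← hnorm1, ← hnorm2, add_comm]
        have := norm_sub_norm_le (cexp (-w * I)) (-cexp (w * I))
        simpa using this
      rw [h2, norm_div]
      have h4 : Real.pi * t / 2 ≤ Real.sinh (Real.pi * t / 2) := Real.self_le_sinh_iff.2 hb.le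
      rw [Real.sinh_eq] at h4
      simp only [Complex.norm_ofNat]
      linarith
    rw [e1, norm_div, norm_mul, norm_neg, norm_I, one_mul, hnorm1]
    have hexp : Real.exp (-(Real.pi * t / 2)) ≤ 1 := Real.exp_le_one_iff.2 (by linarith)
    calc Real.exp (-(Real.pi * t / 2)) / ‖cos w‖ ≤ 1 / (Real.pi * t / 2) := by
          gcongr
      _ ≤ 1 / t := by
          apply one_div_le_one_div_of_le ht
          nlinarith [Real.pi_gt_three]

end Pool.Agent.MP_291b24_nt
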