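import Mathlib
import Pool.Agent.Lib.MP_291b24_nt.Block
import Pool.Agent.Lib.MP_291b24_nt.GammaB

set_option autoImplicit false

open Finset
open Complex (I)

namespace Pool.Agent.MP_291b24_nt

lemma sum_blocks (f : ℕ → ℂ) (Z H k : ℕ) :
    ∑ n ∈ Ioc Z (Z + k * H), f n = ∑ b ∈ range k, ∑ n ∈ Ioc (Z + b * H) (Z + b * H + H), f n := by
  induction k with
  | zero => simp
  | succ k ih =>
    rw [Finset.sum_range_succ, ← ih,
      Finset.sum_Ioc_consecutive _ (by omega) (by omega)]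
    congr 2
    ring

lemma norm_wt_sub (ρ : ℂ) (n : ℕ) : ‖wt ρ n - wt I n‖ ≤ ‖ρ - I‖ := by
  unfold wt kap
  split_ifs <;> simp

theorem core_ineq {p : ℕ} (hp : p.Prime) (hp17 : 17 ≤ p) {σ M : ℝ}
    (hσ0 : 0 ≤ σ) (hσ1 : σ ≤ 1)
    (hyp : ∀ Z : ℕ, p ^ 19 ≤ Z → Z ≤ 2 * p ^ 19 → ∃ ρ : ℂ,
      ‖ρ - I‖ ≤ 1 / (2 * Real.pi * Z / p ^ 2) ∧
      ∀ N, Z ≤ N → N ≤ Z + p ^ 10 → ‖A ρ σ (2 * Real.pi * Z / p ^ 2) N‖ ≤ M) :
    (p : ℝ) ^ 17 / 8 - 14 * p ^ 12 ≤ (p : ℝ) ^ 9 * (4 * M * ((p : ℝ) ^ 19) ^ (-σ) + 1) := by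
  have hpN : 0 < p := hp.pos
  have hp0 : (0 : ℝ) < p := by exact_mod_cast hpN
  have hp17' : (17 : ℝ) ≤ p := by exact_mod_cast hp17
  have hp2 : p ^ 2 ≠ 0 := by positivity
  set ζ : ℂ := Complex.exp (2 * Real.pi * I / (p ^ 2 : ℕ)) with hζ
  have hprim : IsPrimitiveRoot ζ (p ^ 2) := Complex.isPrimitiveRoot_exp _ hp2
  have hζn : ‖ζ‖ = 1 := hprim.norm'_eq_one hp2
  have hlow := sieve_lower hp (by omega) hprim
  refine hlow.trans ?_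
  have hM0 : 0 ≤ M := by
    obtain ⟨ρ, _, h⟩ := hyp (p ^ 19) le_rfl (by omega)
    exact (norm_nonneg _).trans (h (p ^ 19) le_rfl (by omega))
  have h2Z : 2 * p ^ 19 = p ^ 19 + p ^ 9 * p ^ 10 := by ring
  rw [h2Z, sum_blocks]
  refine (norm_sum_le _ _).trans ?_
  have hblock : ∀ b ∈ range (p ^ 9),
      ‖∑ n ∈ Ioc (p ^ 19 + b * p ^ 10) (p ^ 19 + b * p ^ 10 + p ^ 10), wt I n * ζ ^ n‖ ≤
        4 * M * ((p : ℝ) ^ 19) ^ (-σ) + 1 := by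
    intro b hb
    rw [mem_range] at hb
    set Z := p ^ 19 + b * p ^ 10 with hZ
    have hZ1 : p ^ 19 ≤ Z := by omega
    have hZ2 : Z ≤ 2 * p ^ 19 := by
      have : b * p ^ 10 ≤ p ^ 9 * p ^ 10 := Nat.mul_le_mul_right _ hb.le
      rw [h2Z]; omega
    have hZpos : 0 < Z := lt_of_lt_of_le (by positivity) hZ1
    have hZ0 : (0 : ℝ) < Z := by exact_mod_cast hZpos
    have hZ19 : (p : ℝ) ^ 19 ≤ Z := by exact_mod_cast hZ1
    obtain ⟨ρ, hρ, hA⟩ := hyp Z hZ1 hZ2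
    have h1 := block_bound (p := p) (by omega) hZ1 hσ0 hσ1 rfl ρ hA
    rw [← hζ] at h1
    have h2 : ‖∑ n ∈ Ioc Z (Z + p ^ 10), (wt ρ n - wt I n) * ζ ^ n‖ ≤ 1 := by
      refine (norm_sum_le _ _).trans ?_
      have h3 : ∀ n ∈ Ioc Z (Z + p ^ 10), ‖(wt ρ n - wt I n) * ζ ^ n‖ ≤ 1 / (2 * Real.pi * Z / p ^ 2) := by
        intro n _
        rw [norm_mul, norm_pow, hζn, one_pow, mul_one]
        exact (norm_wt_sub ρ n).trans hρ
      refine (Finset.sum_le_sum h3).trans ?_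
      rw [Finset.sum_const, Nat.card_Ioc, nsmul_eq_mul]
      have h4 : ((Z + p ^ 10 - Z : ℕ) : ℝ) = (p : ℝ) ^ 10 := by
        rw [Nat.add_sub_cancel_left]; push_cast; ring
      rw [h4]
      have hpi := Real.pi_gt_three
      have h5 : (p : ℝ) ^ 10 * (1 / (2 * Real.pi * Z / p ^ 2)) = (p : ℝ) ^ 12 / (2 * Real.pi * Z) := by
        field_simp
      rw [h5, div_le_one (by positivity)]
      calc (p : ℝ) ^ 12 ≤ (p : ℝ) ^ 19 := pow_le_pow_right₀ (by linarith) (by norm_num)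
        _ ≤ Z := hZ19
        _ ≤ 2 * Real.pi * Z := by nlinarith
    have h6 : ∑ n ∈ Ioc Z (Z + p ^ 10), wt I n * ζ ^ n =
        ∑ n ∈ Ioc Z (Z + p ^ 10), wt ρ n * ζ ^ n -
        ∑ n ∈ Ioc Z (Z + p ^ 10), (wt ρ n - wt I n) * ζ ^ n := by
      rw [← Finset.sum_sub_distrib]
      refine Finset.sum_congr rfl fun n _ => ?_
      ring
    rw [h6]
    refine (norm_sub_le _ _).trans ?_
    have h7 : (Z : ℝ) ^ (-σ) ≤ ((p : ℝ) ^ 19) ^ (-σ) :=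
      Real.rpow_le_rpow_of_nonpos (by positivity) hZ19 (by linarith)
    have h8 : 4 * M * (Z : ℝ) ^ (-σ) ≤ 4 * M * ((p : ℝ) ^ 19) ^ (-σ) := by gcongr
    linarith
  refine (Finset.sum_le_sum hblock).trans ?_
  rw [Finset.sum_const, card_range, nsmul_eq_mul]
  push_cast
  exact le_rfl

/-- the deviation on the line `β = -α`, `α = -σ - it` -/
noncomputable def E0 (N : ℕ) (σ t : ℝ) : ℂ :=
  (Real.pi : ℂ) ^ (-σ - t * I : ℂ) *
    (∑ n ∈ (Icc 1 N).filter (fun n => Odd n ∧ Squarefree n),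
      (if n % 4 = 1 then Ge (-σ - t * I) else Go (-σ - t * I)) * (n : ℂ) ^ (-(-σ - t * I) : ℂ)) -
  (Real.pi : ℂ) ^ (-σ - t * I : ℂ) * (N : ℂ) ^ (1 - (-σ - t * I) : ℂ) *
    (Ge (-σ - t * I) + Go (-σ - t * I)) / (3 * (1 - (-σ - t * I)) * riemannZeta 2)

lemma one_le_norm_zeta_two : 1 ≤ ‖riemannZeta 2‖ := by
  rw [riemannZeta_two]
  have h : ((Real.pi : ℂ) ^ 2 / 6) = ((Real.pi ^ 2 / 6 : ℝ) : ℂ) := by push_cast; ring
  rw [h, Complex.norm_real, Real.norm_eq_abs]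
  have h1 := Real.pi_gt_three
  have h2 : 1 ≤ Real.pi ^ 2 / 6 := by nlinarith
  exact h2.trans (le_abs_self _)

lemma A_eq {N : ℕ} (hN : 0 < N) {σ t : ℝ} (hσ0 : 0 < σ) (hσ1 : σ < 1 / 2) (ht : 1 ≤ t) {ρ : ℂ}
    (hρ : Go (-σ - t * I) = ρ * Ge (-σ - t * I)) (hρ1 : ‖ρ - I‖ ≤ 1 / t) :
    ‖A ρ σ t N‖ ≤ ‖E0 N σ t‖ * Real.pi ^ σ /
        (Real.Gamma (1 / 4 + σ / 2) / Real.Gamma (1 / 4 - σ / 2)) + (N : ℝ) ^ (1 + σ) / t := by
  set α : ℂ := -σ - t * I with hα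
  set G := Ge α with hG
  set cσ := Real.Gamma (1 / 4 + σ / 2) / Real.Gamma (1 / 4 - σ / 2) with hcσ
  have hcpos : 0 < cσ := div_pos (Real.Gamma_pos_of_pos (by linarith)) (Real.Gamma_pos_of_pos (by linarith))
  have hGn : cσ ≤ ‖G‖ := norm_Ge_ge hσ0 hσ1 t
  have hG0 : G ≠ 0 := by
    intro h; rw [h, norm_zero] at hGn; linarith
  have hpi0 : (Real.pi : ℂ) ≠ 0 := by exact_mod_cast Real.pi_ne_zero
  have hpiα : (Real.pi : ℂ) ^ α ≠ 0 := by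
    rw [Complex.cpow_def_of_ne_zero hpi0]; exact Complex.exp_ne_zero _
  have hpin : ‖(Real.pi : ℂ) ^ α‖ = Real.pi ^ (-σ) := by
    rw [Complex.norm_cpow_eq_rpow_re_of_pos Real.pi_pos]
    congr 1; rw [hα]; simp
  have hsumA : ∑ n ∈ (Icc 1 N).filter (fun n => Odd n ∧ Squarefree n),
      (if n % 4 = 1 then G else Go α) * (n : ℂ) ^ (-α) = G * A ρ σ t N := by
    rw [A, Finset.mul_sum, Finset.sum_filter]
    have hI : Icc 1 N = Ioc 0 N := by ext x; simp only [mem_Icc, mem_Ioc]; omega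
    rw [hI]
    refine Finset.sum_congr rfl fun n _ => ?_
    have hneg : -α = (σ : ℂ) + t * I := by rw [hα]; ring
    unfold wt kap
    rw [hρ, hneg]
    split_ifs <;> ring
  have hα1 : (1 - α) ≠ 0 := by
    intro h
    have := congrArg Complex.re h
    rw [hα] at this
    simp at this
    linarith
  have hz2 : riemannZeta 2 ≠ 0 := by
    have := one_le_norm_zeta_two
    intro h; rw [h, norm_zero] at this; linarith
  have hE : E0 N σ t = (Real.pi : ℂ) ^ α * (G * A ρ σ t N) -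
      (Real.pi : ℂ) ^ α * (N : ℂ) ^ (1 - α) * (G + ρ * G) / (3 * (1 - α) * riemannZeta 2) := by
    rw [E0, ← hα, hsumA, hρ]
  have hAeq : A ρ σ t N = E0 N σ t / ((Real.pi : ℂ) ^ α * G) +
      (N : ℂ) ^ (1 - α) * (1 + ρ) / (3 * (1 - α) * riemannZeta 2) := by
    rw [hE]
    field_simp
    ring
  rw [hAeq]
  refine (norm_add_le _ _).trans ?_
  have hN0 : (0 : ℝ) < N := by exact_mod_cast hN
  have hb1 : ‖E0 N σ t / ((Real.pi : ℂ) ^ α * G)‖ ≤ ‖E0 N σ t‖ * Real.pi ^ σ / cσ := by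
    rw [norm_div, norm_mul, hpin, Real.rpow_neg Real.pi_pos.le]
    have hpσ : 0 < Real.pi ^ σ := Real.rpow_pos_of_pos Real.pi_pos _
    have e : ‖E0 N σ t‖ / ((Real.pi ^ σ)⁻¹ * ‖G‖) = ‖E0 N σ t‖ * Real.pi ^ σ / ‖G‖ := by
      have : ‖G‖ ≠ 0 := by linarith
      field_simp
    rw [e]
    gcongr
  have hb2 : ‖(N : ℂ) ^ (1 - α) * (1 + ρ) / (3 * (1 - α) * riemannZeta 2)‖ ≤ (N : ℝ) ^ (1 + σ) / t := by
    rw [norm_div, norm_mul, norm_mul, norm_mul]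
    have e1 : ‖(N : ℂ) ^ (1 - α)‖ = (N : ℝ) ^ (1 + σ) := by
      rw [Complex.norm_natCast_cpow_of_pos hN]
      congr 1; rw [hα]; simp
    have e2 : ‖(1 + ρ : ℂ)‖ ≤ 3 := by
      have h1 : (1 + ρ : ℂ) = (1 + I) + (ρ - I) := by ring
      have h2 := norm_one_add_I_le
      have h3 : 1 / t ≤ 1 := by rw [div_le_one (by linarith)]; exact ht
      calc ‖(1 + ρ : ℂ)‖ = ‖(1 + I) + (ρ - I)‖ := by rw [h1]
        _ ≤ ‖(1 + I : ℂ)‖ + ‖ρ - I‖ := norm_add_le _ _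
        _ ≤ 3 := by linarith
    have e3 : t ≤ ‖(1 - α : ℂ)‖ := by
      have h1 := Complex.abs_im_le_norm (1 - α)
      have h2 : (1 - α).im = t := by rw [hα]; simp
      rw [h2] at h1
      exact (le_abs_self t).trans h1
    have e4 : ‖(3 : ℂ)‖ = 3 := by simp
    have e5 := one_le_norm_zeta_two
    rw [e1, e4]
    have ht0 : 0 < t := by linarith
    rw [div_le_div_iff₀ (by positivity) ht0]
    have hNσ : 0 ≤ (N : ℝ) ^ (1 + σ) := by positivity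
    have e6 : ‖(1 + ρ : ℂ)‖ * t ≤ 3 * ‖(1 - α : ℂ)‖ * ‖riemannZeta 2‖ := by
      calc ‖(1 + ρ : ℂ)‖ * t ≤ 3 * ‖(1 - α : ℂ)‖ := mul_le_mul e2 e3 ht0.le (by norm_num)
        _ = 3 * ‖(1 - α : ℂ)‖ * 1 := by ring
        _ ≤ _ := by gcongr
    calc (N : ℝ) ^ (1 + σ) * ‖(1 + ρ : ℂ)‖ * t = (N : ℝ) ^ (1 + σ) * (‖(1 + ρ : ℂ)‖ * t) := by ring
      _ ≤ (N : ℝ) ^ (1 + σ) * (3 * ‖(1 - α : ℂ)‖ * ‖riemannZeta 2‖) := by gcongr
  linarith

end Pool.Agent.MP_291b24_nt
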