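import Mathlib
import Pool.Agent.Lib.MP_291b24_nt.Core

set_option autoImplicit false

open Finset Filter
open Complex (I)

namespace Pool.Agent.MP_291b24_nt

theorem core {σ : ℝ} (hσ1 : 1 / 5 ≤ σ) (hσ2 : σ < 1 / 4) (K C : ℝ) (hC : 0 < C) (X0 : ℕ) :
    ∃ N : ℕ, ∃ t : ℝ, X0 ≤ N ∧ 1 ≤ t ∧ t < C * (N : ℝ) ^ (9 / 10 : ℝ) ∧
      K * (N : ℝ) ^ (3 / 5 : ℝ) < ‖E0 N σ t‖ := by
  by_contra hcon
  push Not at hcon
  set cσ := Real.Gamma (1 / 4 + σ / 2) / Real.Gamma (1 / 4 - σ / 2) with hcσ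
  have hcpos : 0 < cσ := div_pos (Real.Gamma_pos_of_pos (by linarith)) (Real.Gamma_pos_of_pos (by linarith))
  have hpσ : 0 < Real.pi ^ σ := Real.rpow_pos_of_pos Real.pi_pos _
  set K1 : ℝ := |K| * Real.pi ^ σ / cσ + 1 with hK1
  have hK1pos : 1 ≤ K1 := by
    rw [hK1]; have : 0 ≤ |K| * Real.pi ^ σ / cσ := by positivity
    linarith
  -- choose the prime
  have ht1 : Tendsto (fun n : ℕ => ((n : ℝ)) ^ (2 / 5 : ℝ)) atTop atTop :=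
    (tendsto_rpow_atTop (by norm_num)).comp tendsto_natCast_atTop_atTop
  have ht2 : Tendsto (fun n : ℕ => ((n : ℝ)) ^ (1 / 10 : ℝ)) atTop atTop :=
    (tendsto_rpow_atTop (by norm_num)).comp tendsto_natCast_atTop_atTop
  obtain ⟨p0, hp0⟩ := eventually_atTop.1
    ((ht1.eventually_ge_atTop (192 * K1)).and (ht2.eventually_ge_atTop (13 / C)))
  obtain ⟨p, hpge, hp⟩ := Nat.exists_infinite_primes (max p0 (max X0 17))
  have hp17 : 17 ≤ p := le_trans (le_trans (le_max_right _ _) (le_max_right _ _)) hpge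
  have hpX0 : X0 ≤ p := le_trans (le_trans (le_max_left _ _) (le_max_right _ _)) hpge
  obtain ⟨hpK, hpC⟩ := hp0 p (le_trans (le_max_left _ _) hpge)
  have hpN : 0 < p := hp.pos
  have hpR : (0 : ℝ) < p := by exact_mod_cast hpN
  have hp17' : (17 : ℝ) ≤ p := by exact_mod_cast hp17
  have hp1 : (1 : ℝ) ≤ p := by linarith
  set q : ℝ := (p : ℝ) ^ 19 with hq
  have hq0 : 0 < q := by positivity
  have hq1 : 1 ≤ q := one_le_pow₀ hp1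
  have hpi3 := Real.pi_gt_three
  have hpi4 : Real.pi < 3.15 := Real.pi_lt_d2
  set M : ℝ := K1 * (3 * q ^ (3 / 5 : ℝ)) with hM
  have hineq := core_ineq hp hp17 (σ := σ) (M := M) (by linarith) (by linarith) (by
    intro Z hZ1 hZ2
    have hZpos : 0 < Z := lt_of_lt_of_le (by positivity) hZ1
    have hZ0 : (0 : ℝ) < Z := by exact_mod_cast hZpos
    have hZ19 : q ≤ Z := by rw [hq]; exact_mod_cast hZ1
    have hZ2' : (Z : ℝ) ≤ 2 * q := by rw [hq]; exact_mod_cast hZ2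
    set t : ℝ := 2 * Real.pi * Z / p ^ 2 with ht
    have htpos : 0 < t := by rw [ht]; positivity
    have ht6 : 6 * (Z : ℝ) / p ^ 2 ≤ t := by
      rw [ht]
      apply div_le_div_of_nonneg_right _ (by positivity)
      nlinarith
    have htge : 1 ≤ t := by
      refine le_trans ?_ ht6
      rw [le_div_iff₀ (by positivity), one_mul]
      calc (p : ℝ) ^ 2 ≤ (p : ℝ) ^ 19 := pow_le_pow_right₀ hp1 (by norm_num)
        _ ≤ Z := hZ19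
        _ ≤ 6 * Z := by linarith
    obtain ⟨ρ, hρ, hρ1⟩ := exists_rho (σ := σ) (by linarith) (by linarith) htpos
    refine ⟨ρ, hρ1, fun N hN1 hN2 => ?_⟩
    have hNpos : 0 < N := lt_of_lt_of_le hZpos hN1
    have hN0 : (0 : ℝ) < N := by exact_mod_cast hNpos
    have hNZ : (Z : ℝ) ≤ N := by exact_mod_cast hN1
    have hN3 : (N : ℝ) ≤ 2 * Z := by
      have h1 : p ^ 10 ≤ Z := le_trans (Nat.pow_le_pow_right hpN (by norm_num)) hZ1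
      exact_mod_cast (by omega : N ≤ 2 * Z)
    have hN4 : (N : ℝ) ≤ 3 * q := by
      have h1 : (N : ℝ) ≤ Z + (p : ℝ) ^ 10 := by exact_mod_cast hN2
      have h2 : (p : ℝ) ^ 10 ≤ (p : ℝ) ^ 19 := pow_le_pow_right₀ hp1 (by norm_num)
      rw [hq] at hZ2' ⊢
      linarith
    -- t is in the allowed range
    have htN : t < C * (N : ℝ) ^ (9 / 10 : ℝ) := by
      have h1 : (Z : ℝ) = (Z : ℝ) ^ (9 / 10 : ℝ) * (Z : ℝ) ^ (1 / 10 : ℝ) := by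
        rw [← Real.rpow_add hZ0]; norm_num
      have h2 : (Z : ℝ) ^ (1 / 10 : ℝ) ≤ 2 * (p : ℝ) ^ (19 / 10 : ℝ) := by
        calc (Z : ℝ) ^ (1 / 10 : ℝ) ≤ (2 * q) ^ (1 / 10 : ℝ) :=
              Real.rpow_le_rpow hZ0.le hZ2' (by norm_num)
          _ = (2 : ℝ) ^ (1 / 10 : ℝ) * q ^ (1 / 10 : ℝ) := Real.mul_rpow (by norm_num) hq0.le
          _ ≤ 2 * (p : ℝ) ^ (19 / 10 : ℝ) := by
            have h3 : (2 : ℝ) ^ (1 / 10 : ℝ) ≤ 2 := by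
              calc (2 : ℝ) ^ (1 / 10 : ℝ) ≤ (2 : ℝ) ^ (1 : ℝ) :=
                    Real.rpow_le_rpow_of_exponent_le (by norm_num) (by norm_num)
                _ = 2 := Real.rpow_one _
            have h4 : q ^ (1 / 10 : ℝ) = (p : ℝ) ^ (19 / 10 : ℝ) := by
              rw [hq, ← Real.rpow_natCast, ← Real.rpow_mul hpR.le]; norm_num
            rw [h4]
            gcongr
      have h5 : (p : ℝ) ^ 2 = (p : ℝ) ^ (19 / 10 : ℝ) * (p : ℝ) ^ (1 / 10 : ℝ) := by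
        rw [← Real.rpow_add hpR, ← Real.rpow_natCast]; norm_num
      have hZ9 : 0 < (Z : ℝ) ^ (9 / 10 : ℝ) := Real.rpow_pos_of_pos hZ0 _
      have hp19 : 0 < (p : ℝ) ^ (19 / 10 : ℝ) := Real.rpow_pos_of_pos hpR _
      have hp110 : 0 < (p : ℝ) ^ (1 / 10 : ℝ) := Real.rpow_pos_of_pos hpR _
      have h6 : t < C * (Z : ℝ) ^ (9 / 10 : ℝ) := by
        rw [ht, div_lt_iff₀ (by positivity)]
        have hpC' : 13 ≤ C * (p : ℝ) ^ (1 / 10 : ℝ) := by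
          rw [div_le_iff₀ hC] at hpC; linarith
        calc 2 * Real.pi * (Z : ℝ) = 2 * Real.pi * ((Z : ℝ) ^ (9 / 10 : ℝ) * (Z : ℝ) ^ (1 / 10 : ℝ)) := by rw [← h1]
          _ ≤ 2 * Real.pi * ((Z : ℝ) ^ (9 / 10 : ℝ) * (2 * (p : ℝ) ^ (19 / 10 : ℝ))) := by gcongr
          _ = (4 * Real.pi) * ((Z : ℝ) ^ (9 / 10 : ℝ) * (p : ℝ) ^ (19 / 10 : ℝ)) := by ring
          _ < 13 * ((Z : ℝ) ^ (9 / 10 : ℝ) * (p : ℝ) ^ (19 / 10 : ℝ)) := by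
            apply mul_lt_mul_of_pos_right _ (by positivity)
            linarith
          _ ≤ (C * (p : ℝ) ^ (1 / 10 : ℝ)) * ((Z : ℝ) ^ (9 / 10 : ℝ) * (p : ℝ) ^ (19 / 10 : ℝ)) := by gcongr
          _ = C * (Z : ℝ) ^ (9 / 10 : ℝ) * (p : ℝ) ^ 2 := by rw [h5]; ring
      have h7 : (Z : ℝ) ^ (9 / 10 : ℝ) ≤ (N : ℝ) ^ (9 / 10 : ℝ) :=
        Real.rpow_le_rpow hZ0.le hNZ (by norm_num)
      calc t < C * (Z : ℝ) ^ (9 / 10 : ℝ) := h6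
        _ ≤ _ := by gcongr
    have hNX0 : X0 ≤ N := by
      have h1 : p ≤ p ^ 19 := Nat.le_self_pow (by norm_num) p
      omega
    have hE := hcon N t hNX0 htge htN
    have hA := A_eq hNpos (σ := σ) (by linarith) (by linarith) htge hρ hρ1
    refine hA.trans ?_
    rw [← hcσ]
    have h3q : (N : ℝ) ^ (3 / 5 : ℝ) ≤ 3 * q ^ (3 / 5 : ℝ) := by
      calc (N : ℝ) ^ (3 / 5 : ℝ) ≤ (3 * q) ^ (3 / 5 : ℝ) := Real.rpow_le_rpow hN0.le hN4 (by norm_num)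
        _ = (3 : ℝ) ^ (3 / 5 : ℝ) * q ^ (3 / 5 : ℝ) := Real.mul_rpow (by norm_num) hq0.le
        _ ≤ 3 * q ^ (3 / 5 : ℝ) := by
          have h3 : (3 : ℝ) ^ (3 / 5 : ℝ) ≤ 3 := by
            calc (3 : ℝ) ^ (3 / 5 : ℝ) ≤ (3 : ℝ) ^ (1 : ℝ) :=
                  Real.rpow_le_rpow_of_exponent_le (by norm_num) (by norm_num)
              _ = 3 := Real.rpow_one _
          gcongr
    have hfirst : ‖E0 N σ t‖ * Real.pi ^ σ / cσ ≤ (|K| * Real.pi ^ σ / cσ) * (N : ℝ) ^ (3 / 5 : ℝ) := by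
      have h1 : ‖E0 N σ t‖ ≤ |K| * (N : ℝ) ^ (3 / 5 : ℝ) :=
        hE.trans (mul_le_mul_of_nonneg_right (le_abs_self K) (by positivity))
      calc ‖E0 N σ t‖ * Real.pi ^ σ / cσ ≤ (|K| * (N : ℝ) ^ (3 / 5 : ℝ)) * Real.pi ^ σ / cσ := by gcongr
        _ = _ := by ring
    have hsecond : (N : ℝ) ^ (1 + σ) / t ≤ (N : ℝ) ^ (3 / 5 : ℝ) := by
      rw [div_le_iff₀ htpos]
      have hNt : (N : ℝ) ≤ t * (p : ℝ) ^ 2 := by
        rw [div_le_iff₀ (by positivity)] at ht6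
        linarith
      have hp2N : (p : ℝ) ^ 2 ≤ (N : ℝ) ^ (7 / 20 : ℝ) := by
        calc (p : ℝ) ^ 2 = (p : ℝ) ^ (2 : ℝ) := by rw [← Real.rpow_natCast]; norm_num
          _ ≤ (p : ℝ) ^ ((19 : ℝ) * (7 / 20)) :=
            Real.rpow_le_rpow_of_exponent_le hp1 (by norm_num)
          _ = q ^ (7 / 20 : ℝ) := by rw [hq, Real.rpow_mul hpR.le, ← Real.rpow_natCast]; norm_num
          _ ≤ (N : ℝ) ^ (7 / 20 : ℝ) := Real.rpow_le_rpow hq0.le (hZ19.trans hNZ) (by norm_num)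
      have hN1' : (1 : ℝ) ≤ N := hq1.trans (hZ19.trans hNZ)
      have hNσ : (N : ℝ) ^ σ ≤ (N : ℝ) ^ (1 / 4 : ℝ) :=
        Real.rpow_le_rpow_of_exponent_le hN1' hσ2.le
      calc (N : ℝ) ^ (1 + σ) = N * (N : ℝ) ^ σ := by rw [Real.rpow_add hN0, Real.rpow_one]
        _ ≤ (t * (p : ℝ) ^ 2) * (N : ℝ) ^ (1 / 4 : ℝ) := by gcongr
        _ ≤ (t * (N : ℝ) ^ (7 / 20 : ℝ)) * (N : ℝ) ^ (1 / 4 : ℝ) := by gcongr
        _ = t * ((N : ℝ) ^ (7 / 20 : ℝ) * (N : ℝ) ^ (1 / 4 : ℝ)) := by ring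
        _ = t * (N : ℝ) ^ (3 / 5 : ℝ) := by rw [← Real.rpow_add hN0]; norm_num
        _ = _ := by ring
    calc ‖E0 N σ t‖ * Real.pi ^ σ / cσ + (N : ℝ) ^ (1 + σ) / t
        ≤ (|K| * Real.pi ^ σ / cσ) * (N : ℝ) ^ (3 / 5 : ℝ) + (N : ℝ) ^ (3 / 5 : ℝ) := add_le_add hfirst hsecond
      _ = K1 * (N : ℝ) ^ (3 / 5 : ℝ) := by rw [hK1]; ring
      _ ≤ K1 * (3 * q ^ (3 / 5 : ℝ)) := by gcongr)
  -- final numerical contradiction
  have hqσ : q ^ (-σ) ≤ q ^ (-(1 / 5) : ℝ) := Real.rpow_le_rpow_of_exponent_le hq1 (by linarith)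
  have hprod : q ^ (3 / 5 : ℝ) * q ^ (-(1 / 5) : ℝ) = (p : ℝ) ^ (38 / 5 : ℝ) := by
    rw [← Real.rpow_add hq0, hq, ← Real.rpow_natCast, ← Real.rpow_mul hpR.le]; norm_num
  have h8 : (p : ℝ) ^ 8 = (p : ℝ) ^ (38 / 5 : ℝ) * (p : ℝ) ^ (2 / 5 : ℝ) := by
    rw [← Real.rpow_add hpR, ← Real.rpow_natCast]; norm_num
  have hp385 : 0 < (p : ℝ) ^ (38 / 5 : ℝ) := Real.rpow_pos_of_pos hpR _
  have hmain : 4 * M * q ^ (-σ) ≤ (p : ℝ) ^ 8 / 16 := by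
    calc 4 * M * q ^ (-σ) ≤ 4 * M * q ^ (-(1 / 5) : ℝ) := by
          have : 0 ≤ M := by rw [hM]; positivity
          gcongr
      _ = 12 * K1 * (q ^ (3 / 5 : ℝ) * q ^ (-(1 / 5) : ℝ)) := by rw [hM]; ring
      _ = 12 * K1 * (p : ℝ) ^ (38 / 5 : ℝ) := by rw [hprod]
      _ ≤ ((p : ℝ) ^ (2 / 5 : ℝ) / 16) * (p : ℝ) ^ (38 / 5 : ℝ) := by
        apply mul_le_mul_of_nonneg_right _ hp385.le
        linarith
      _ = (p : ℝ) ^ 8 / 16 := by rw [h8]; ring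
  have h17 : (p : ℝ) ^ 17 / 8 - 14 * (p : ℝ) ^ 12 ≤ (p : ℝ) ^ 17 / 16 + (p : ℝ) ^ 9 := by
    calc _ ≤ (p : ℝ) ^ 9 * (4 * M * q ^ (-σ) + 1) := hineq
      _ ≤ (p : ℝ) ^ 9 * ((p : ℝ) ^ 8 / 16 + 1) := by gcongr
      _ = _ := by ring
  have h912 : (p : ℝ) ^ 9 ≤ (p : ℝ) ^ 12 := pow_le_pow_right₀ hp1 (by norm_num)
  have h5 : (17 : ℝ) ^ 5 ≤ (p : ℝ) ^ 5 := pow_le_pow_left₀ (by norm_num) hp17' 5
  have h12 : 0 < (p : ℝ) ^ 12 := by positivity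
  have h1712 : (p : ℝ) ^ 17 = (p : ℝ) ^ 12 * (p : ℝ) ^ 5 := by ring
  rw [h1712] at h17
  nlinarith

end Pool.Agent.MP_291b24_nt
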