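import Mathlib
import Pool.Agent.Lib.MP_291b24_nt.Char

set_option autoImplicit false

open Complex Filter Topology

namespace Pool.Agent.MP_291b24_nt

lemma countable_of_codiscrete {f : ℂ → ℂ} (h : (f ⁻¹' {0})ᶜ ∈ codiscrete ℂ) :
    {s : ℂ | f s = 0}.Countable := by
  have h1 := (mem_codiscrete'.1 h).2
  rw [compl_compl] at h1
  exact (HereditarilyLindelofSpace.isLindelof _).countable_of_isDiscrete h1

lemma Lchi_one : Lchi 1 = riemannZeta := by
  funext s
  have : Lchi 1 s = (chi 1).LFunction s := by simp [Lchi]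
  rw [this]
  exact congrFun (DirichletCharacter.LFunction_modOne_eq) s

lemma chi_ne_one {n : ℕ} [NeZero n] (hn : n ≠ 1) (hodd : Odd n) (hsq : Squarefree n) :
    chi n ≠ 1 := by
  intro h
  have := chi_isPrimitive n hodd hsq
  rw [DirichletCharacter.isPrimitive_def, h, DirichletCharacter.conductor_one] at this
  exact hn this.symm

lemma differentiableAt_Lchi {n : ℕ} (hsq : Squarefree n) {s : ℂ} (hs : s ≠ 1) :
    DifferentiableAt ℂ (Lchi n) s := by
  have hn0 : n ≠ 0 := hsq.ne_zero
  have : NeZero n := ⟨hn0⟩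
  have e : Lchi n = (chi n).LFunction := by
    funext s; simp [Lchi, hn0]
  rw [e]
  exact DirichletCharacter.differentiableAt_LFunction _ _ (Or.inl hs)

lemma countable_zeros {n : ℕ} (hodd : Odd n) (hsq : Squarefree n) :
    {s : ℂ | Lchi n s = 0}.Countable := by
  by_cases h1 : n = 1
  · subst h1
    rw [Lchi_one]
    exact (HereditarilyLindelofSpace.isLindelof _).countable_of_isDiscrete isDiscrete_riemannZetaZeros
  · have hn0 : n ≠ 0 := hsq.ne_zero
    have : NeZero n := ⟨hn0⟩
    have hne := chi_ne_one h1 hodd hsq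
    have hd := DirichletCharacter.differentiable_LFunction hne
    have e : Lchi n = (chi n).LFunction := by
      funext s; simp [Lchi, hn0]
    rw [e]
    apply countable_of_codiscrete
    refine AnalyticOnNhd.preimage_zero_mem_codiscrete (x := 2) ?_ ?_
    · exact fun z _ => hd.analyticAt z
    · exact DirichletCharacter.LFunction_ne_zero_of_one_le_re _ (Or.inl hne) (by norm_num)

/-- There is a vertical line that contains no zero of any of the `L(s, χ_n)`. -/
lemma exists_sigma : ∃ σ : ℝ, 1 / 5 < σ ∧ σ < 1 / 4 ∧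
    ∀ n : ℕ, Odd n → Squarefree n → ∀ s : ℂ, s.re = 1 / 2 + σ → Lchi n s ≠ 0 := by
  let B : Set ℝ := ⋃ n ∈ {n : ℕ | Odd n ∧ Squarefree n}, (fun s : ℂ => s.re - 1 / 2) '' {s : ℂ | Lchi n s = 0}
  have hB : B.Countable := by
    refine Set.Countable.biUnion (Set.to_countable _) ?_
    rintro n ⟨h1, h2⟩
    exact (countable_zeros h1 h2).image _
  have hd : Dense Bᶜ := hB.dense_compl ℝ
  obtain ⟨σ, h1, h2⟩ := hd.exists_between (show (1 / 5 : ℝ) < 1 / 4 by norm_num)
  refine ⟨σ, h2.1, h2.2, fun n hodd hsq s hs h0 => h1 ?_⟩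
  simp only [B, Set.mem_iUnion]
  refine ⟨n, ⟨hodd, hsq⟩, s, h0, ?_⟩
  simp [hs]

end Pool.Agent.MP_291b24_nt
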