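import Mathlib
import Pool.Agent.Lib.MP_291b24_nt.Zeros
import Pool.Agent.Lib.MP_291b24_nt.Core2

set_option autoImplicit false

open Complex Filter Topology

namespace Pool.Agent.MP_291b24_nt

lemma summable_bound : Summable (fun p : {p : ℕ // p.Prime ∧ 3 ≤ p} =>
    4 * ((p : ℕ) : ℝ) ^ (-(3 / 2) : ℝ)) := by
  have h : Summable (fun n : ℕ => 4 * (n : ℝ) ^ (-(3 / 2) : ℝ)) :=
    (Real.summable_nat_rpow.2 (by norm_num)).mul_left 4
  exact h.subtype _

lemma norm_natpow {p : ℕ} (hp : 0 < p) (s : ℂ) : ‖(p : ℂ) ^ s‖ = (p : ℝ) ^ s.re :=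
  Complex.norm_natCast_cpow_of_pos hp s

/-- general termwise bound -/
lemma term_bound {p : ℕ} (hp : 3 ≤ p) {a b : ℂ} (ha : 0 ≤ a.re) (hb : 1 ≤ b.re)
    (hab : a.re - b.re ≤ -(1 / 2)) :
    ‖(1 - (p : ℂ) ^ a) / (((p : ℂ) + 1) * ((p : ℂ) ^ b - 1))‖ ≤ 4 * (p : ℝ) ^ (-(3 / 2) : ℝ) := by
  have hp0 : 0 < p := by omega
  have hpR : (0 : ℝ) < p := by exact_mod_cast hp0
  have hp3 : (3 : ℝ) ≤ p := by exact_mod_cast hp
  have hp1 : (1 : ℝ) ≤ p := by linarith
  have h1 : ‖(1 - (p : ℂ) ^ a)‖ ≤ 2 * (p : ℝ) ^ a.re := by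
    refine (norm_sub_le _ _).trans ?_
    rw [norm_one, norm_natpow hp0]
    have : 1 ≤ (p : ℝ) ^ a.re := Real.one_le_rpow hp1 ha
    linarith
  have h2 : (p : ℝ) ^ b.re / 2 ≤ ‖((p : ℂ) ^ b - 1)‖ := by
    have h3 := norm_sub_norm_le ((p : ℂ) ^ b) 1
    rw [norm_one, norm_natpow hp0] at h3
    have h4 : (2 : ℝ) ≤ (p : ℝ) ^ b.re := by
      calc (2 : ℝ) ≤ (p : ℝ) ^ (1 : ℝ) := by rw [Real.rpow_one]; linarith
        _ ≤ (p : ℝ) ^ b.re := Real.rpow_le_rpow_of_exponent_le hp1 hb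
    linarith
  have h5 : (p : ℝ) ≤ ‖((p : ℂ) + 1)‖ := by
    have : ((p : ℂ) + 1) = (((p : ℝ) + 1 : ℝ) : ℂ) := by push_cast; ring
    rw [this, norm_real, Real.norm_eq_abs, abs_of_pos (by positivity)]
    linarith
  have hpb : 0 < (p : ℝ) ^ b.re := Real.rpow_pos_of_pos hpR _
  rw [norm_div, norm_mul]
  calc ‖(1 - (p : ℂ) ^ a)‖ / (‖((p : ℂ) + 1)‖ * ‖((p : ℂ) ^ b - 1)‖)
      ≤ (2 * (p : ℝ) ^ a.re) / (p * ((p : ℝ) ^ b.re / 2)) := by
        gcongr
    _ = 4 * ((p : ℝ) ^ a.re * (p : ℝ) ^ (-b.re) * (p : ℝ) ^ (-1 : ℝ)) := by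
        rw [Real.rpow_neg hpR.le, Real.rpow_neg_one]
        field_simp
        ring
    _ = 4 * (p : ℝ) ^ (a.re - b.re - 1) := by
        rw [← Real.rpow_add hpR, ← Real.rpow_add hpR]
        congr 2
    _ ≤ 4 * (p : ℝ) ^ (-(3 / 2) : ℝ) := by
        have : (p : ℝ) ^ (a.re - b.re - 1) ≤ (p : ℝ) ^ (-(3 / 2) : ℝ) :=
          Real.rpow_le_rpow_of_exponent_le hp1 (by linarith)
        linarith

lemma tendsto_cpow_nat {p : ℕ} (hp : p ≠ 0) (s : ℂ) :
    Tendsto (fun η : ℝ => (p : ℂ) ^ (s + η)) (𝓝[>] 0) (𝓝 ((p : ℂ) ^ s)) := by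
  have hp' : (p : ℂ) ≠ 0 := by exact_mod_cast hp
  have hc : Continuous (fun η : ℝ => (p : ℂ) ^ (s + η)) := by
    refine Continuous.const_cpow (by fun_prop) (Or.inl hp')
  have := hc.tendsto 0
  simp only [ofReal_zero, add_zero] at this
  exact this.mono_left nhdsWithin_le_nhds

lemma tendsto_PD_one {α : ℂ} (h1 : -(1 / 4) < α.re) (h2 : α.re < 0) :
    Tendsto (fun η : ℝ => PD (-α) (-α + η)) (𝓝[>] 0) (𝓝 1) := by
  have key := tendsto_tprod_one_add_of_dominated_convergence (𝓕 := 𝓝[>] (0 : ℝ))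
    (f := fun (η : ℝ) (p : {p : ℕ // p.Prime ∧ 3 ≤ p}) => (1 - ((p : ℕ) : ℂ) ^ ((-α + η) - (-α))) /
      ((((p : ℕ) : ℂ) + 1) * (((p : ℕ) : ℂ) ^ (1 + -α + (-α + η)) - 1)))
    (g := fun _ => (0 : ℂ)) summable_bound ?_ ?_
  · simpa [PD] using key
  · rintro ⟨p, hp, hp3⟩
    simp only
    have hp0 : p ≠ 0 := hp.ne_zero
    have hpC : (p : ℂ) ≠ 0 := by exact_mod_cast hp0
    have e1 : ∀ η : ℝ, ((-α + η) - (-α) : ℂ) = 0 + η := by intro η; ring
    have e2 : ∀ η : ℝ, (1 + -α + (-α + η) : ℂ) = (1 - 2 * α) + η := by intro η; ring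
    simp_rw [e1, e2]
    have t1 := tendsto_cpow_nat hp0 0
    have t2 := tendsto_cpow_nat hp0 (1 - 2 * α)
    have hne : (((p : ℂ) + 1) * ((p : ℂ) ^ (1 - 2 * α) - 1)) ≠ 0 := by
      refine mul_ne_zero ?_ ?_
      · intro h; have := congrArg Complex.re h; simp at this
        have hh : (0 : ℝ) ≤ p := by positivity
        linarith
      · intro h
        have h3 : (p : ℂ) ^ (1 - 2 * α) = 1 := sub_eq_zero.1 h
        have h4 := congrArg norm h3
        rw [norm_natpow hp.pos, norm_one] at h4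
        have h5 : (1 : ℝ) < (p : ℝ) ^ (1 - 2 * α).re := by
          apply Real.one_lt_rpow
          · exact_mod_cast (by omega : 1 < p)
          · simp; linarith
        linarith
    have := ((tendsto_const_nhds (x := (1 : ℂ))).sub t1).div ((tendsto_const_nhds (x := (p : ℂ) + 1)).mul
      (t2.sub (tendsto_const_nhds (x := (1 : ℂ))))) hne
    rw [cpow_zero, sub_self, zero_div] at this
    exact this
  · filter_upwards [self_mem_nhdsWithin] with η hη
    rintro ⟨p, hp, hp3⟩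
    have hη' : (0 : ℝ) < η := hη
    apply term_bound hp3
    · simp; exact hη'.le
    · simp; linarith
    · simp; linarith

lemma exists_tendsto_PD {α : ℂ} (h1 : -(1 / 4) < α.re) (h2 : α.re < 0) :
    ∃ L : ℂ, Tendsto (fun η : ℝ => PD α (-α + η)) (𝓝[>] 0) (𝓝 L) := by
  have key := tendsto_tprod_one_add_of_dominated_convergence (𝓕 := 𝓝[>] (0 : ℝ))
    (f := fun (η : ℝ) (p : {p : ℕ // p.Prime ∧ 3 ≤ p}) => (1 - ((p : ℕ) : ℂ) ^ ((-α + η) - α)) /
      ((((p : ℕ) : ℂ) + 1) * (((p : ℕ) : ℂ) ^ (1 + α + (-α + η)) - 1)))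
    (g := fun p : {p : ℕ // p.Prime ∧ 3 ≤ p} => (1 - ((p : ℕ) : ℂ) ^ (-2 * α)) /
      ((((p : ℕ) : ℂ) + 1) * (((p : ℕ) : ℂ) ^ (1 : ℂ) - 1))) summable_bound ?_ ?_
  · exact ⟨_, by simpa [PD] using key⟩
  · rintro ⟨p, hp, hp3⟩
    simp only
    have hp0 : p ≠ 0 := hp.ne_zero
    have e1 : ∀ η : ℝ, ((-α + η) - α : ℂ) = -2 * α + η := by intro η; ring
    have e2 : ∀ η : ℝ, (1 + α + (-α + η) : ℂ) = 1 + η := by intro η; ring
    simp_rw [e1, e2]
    have t1 := tendsto_cpow_nat hp0 (-2 * α)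
    have t2 := tendsto_cpow_nat hp0 1
    have hne : (((p : ℂ) + 1) * ((p : ℂ) ^ (1 : ℂ) - 1)) ≠ 0 := by
      refine mul_ne_zero ?_ ?_
      · intro h; have := congrArg Complex.re h; simp at this
        have hh : (0 : ℝ) ≤ p := by positivity
        linarith
      · intro h
        rw [cpow_one] at h
        have := congrArg Complex.re h
        simp at this
        have hh : (3 : ℝ) ≤ p := by exact_mod_cast hp3
        linarith
    exact ((tendsto_const_nhds (x := (1 : ℂ))).sub t1).div ((tendsto_const_nhds (x := (p : ℂ) + 1)).mul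
      (t2.sub (tendsto_const_nhds (x := (1 : ℂ))))) hne
  · have hsmall : ∀ᶠ η : ℝ in 𝓝[>] 0, η < 1 := by
      have : ∀ᶠ η : ℝ in 𝓝 0, η < 1 := eventually_lt_nhds (by norm_num)
      exact this.filter_mono nhdsWithin_le_nhds
    filter_upwards [self_mem_nhdsWithin, hsmall] with η hη hη1
    rintro ⟨p, hp, hp3⟩
    have hη' : (0 : ℝ) < η := hη
    apply term_bound hp3
    · simp; linarith
    · simp; linarith
    · simp; linarith

lemma tendsto_inv_zeta : Tendsto (fun η : ℝ => (riemannZeta (1 + η))⁻¹) (𝓝[>] 0) (𝓝 0) := by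
  have h1 : Tendsto (fun η : ℝ => (1 + η : ℂ)) (𝓝[>] 0) (𝓝[≠] 1) := by
    rw [tendsto_nhdsWithin_iff]
    constructor
    · have hc : Continuous (fun η : ℝ => (1 + η : ℂ)) := by fun_prop
      have := hc.tendsto 0
      simp only [ofReal_zero, add_zero] at this
      exact this.mono_left nhdsWithin_le_nhds
    · filter_upwards [self_mem_nhdsWithin] with η hη
      have hη' : (0 : ℝ) < η := hη
      simp only [Set.mem_compl_iff, Set.mem_singleton_iff, add_eq_left, ofReal_eq_zero]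
      exact hη'.ne'
  have h2 := riemannZeta_residue_one.comp h1
  have h3 : Tendsto (fun η : ℝ => (η : ℂ)) (𝓝[>] 0) (𝓝 0) := by
    have hc : Continuous (fun η : ℝ => (η : ℂ)) := by fun_prop
    have := hc.tendsto 0
    simp only [ofReal_zero] at this
    exact this.mono_left nhdsWithin_le_nhds
  have h4 := h3.div h2 one_ne_zero
  rw [zero_div] at h4
  refine h4.congr' ?_
  filter_upwards [self_mem_nhdsWithin] with η hη
  have hη' : (η : ℂ) ≠ 0 := by
    have : (0 : ℝ) < η := hη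
    exact_mod_cast this.ne'
  simp only [Pi.div_apply, Function.comp_apply]
  rw [(by ring : (1 + (η : ℂ) - 1) = η)]
  by_cases hz : riemannZeta (1 + η) = 0
  · rw [hz]; simp
  · field_simp

end Pool.Agent.MP_291b24_nt
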